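import Mathlib

/-!
# Project OP, job ANA, first part: integrability and change of variables
-/

set_option autoImplicit false
set_option linter.unusedSectionVars false
set_option linter.unusedVariables false
set_option linter.style.longLine false

namespace Pool.Agent.Q177.OP.Ana

open MeasureTheory Set Filter Topology
open scoped ENNReal

/-- `1 / (z - x)` is integrable on bounded sets -/
theorem intOn_inv (x : ℂ) (r : ℝ) :
    IntegrableOn (fun z : ℂ => (z - x)⁻¹) (Metric.closedBall 0 r) volume := by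
  have h1 : IntegrableOn (fun z : ℂ => (fun y : ℝ => y⁻¹) ‖z‖) (Metric.ball (0 : ℂ) (r + ‖x‖ + 1)) volume := by
    rw [integrableOn_fun_norm_addHaar]
    rw [Complex.finrank_real_complex]
    have h2 : IntegrableOn (fun _ : ℝ => (1 : ℝ)) (Ioo 0 (r + ‖x‖ + 1)) volume :=
      integrableOn_const (by simp)
    refine h2.congr_fun ?_ measurableSet_Ioo
    intro y hy
    have hy0 : y ≠ 0 := ne_of_gt hy.1
    show (1 : ℝ) = y ^ (2 - 1) • y⁻¹
    rw [smul_eq_mul, pow_one, mul_inv_cancel₀ hy0]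
  have h3 : IntegrableOn (fun z : ℂ => z⁻¹) (Metric.ball (0 : ℂ) (r + ‖x‖ + 1)) volume := by
    refine Integrable.mono' h1 ?_ ?_
    · exact (measurable_inv (G := ℂ)).aestronglyMeasurable
    · exact Eventually.of_forall fun z => by rw [norm_inv]
  have h4 : Integrable ((Metric.ball (0 : ℂ) (r + ‖x‖ + 1)).indicator fun z : ℂ => z⁻¹) volume :=
    (integrable_indicator_iff Metric.isOpen_ball.measurableSet).2 h3
  have h5 := h4.comp_sub_right x
  refine (h5.integrableOn (s := Metric.closedBall 0 r)).congr_fun ?_ Metric.isClosed_closedBall.measurableSet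
  intro z hz
  show (Metric.ball (0 : ℂ) (r + ‖x‖ + 1)).indicator (fun z : ℂ => z⁻¹) (z - x) = (z - x)⁻¹
  rw [indicator_of_mem]
  rw [mem_ball_zero_iff]
  rw [mem_closedBall_zero_iff] at hz
  have := norm_sub_le z x
  linarith

/-- the quadratic differential is integrable -/
theorem int_qd (P : Finset ℂ) (a : ℂ → ℂ) (h0 : ∑ x ∈ P, a x = 0) (h1 : ∑ x ∈ P, a x * x = 0) :
    Integrable (fun z : ℂ => ∑ x ∈ P, a x / (z - x)) volume := by
  obtain ⟨R, hR1, hR⟩ : ∃ R : ℝ, 1 ≤ R ∧ ∀ x ∈ P, ‖x‖ ≤ R := by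
    refine ⟨1 + ∑ x ∈ P, ‖x‖, ?_, fun x hx => ?_⟩
    · have : 0 ≤ ∑ x ∈ P, ‖x‖ := Finset.sum_nonneg fun x _ => norm_nonneg x
      linarith
    · have := Finset.single_le_sum (f := fun x : ℂ => ‖x‖) (fun x _ => norm_nonneg x) hx
      linarith
  have hA : IntegrableOn (fun z : ℂ => ∑ x ∈ P, a x / (z - x)) (Metric.closedBall 0 (2 * R)) volume := by
    refine integrable_finset_sum _ fun x _ => ?_
    exact (intOn_inv x (2 * R)).const_mul (a x)
  have hB : IntegrableOn (fun z : ℂ => ∑ x ∈ P, a x / (z - x)) (Metric.closedBall 0 (2 * R))ᶜ volume := by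
    have hI : Integrable (fun z : ℂ => (1 + ‖z‖) ^ (-(3 : ℝ))) volume := by
      apply integrable_one_add_norm
      rw [Complex.finrank_real_complex]
      norm_num
    set M : ℝ := ∑ x ∈ P, ‖a x‖ with hM
    have hM0 : 0 ≤ M := Finset.sum_nonneg fun x _ => norm_nonneg _
    have hI2 := (hI.const_mul (16 * M * R ^ 2)).integrableOn (s := (Metric.closedBall (0 : ℂ) (2 * R))ᶜ)
    refine Integrable.mono' hI2 ?_ ?_
    · refine Measurable.aestronglyMeasurable ?_
      refine Finset.measurable_sum _ fun x _ => ?_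
      exact (measurable_const).div (measurable_id.sub_const x)
    · rw [ae_restrict_iff' Metric.isClosed_closedBall.measurableSet.compl]
      refine Eventually.of_forall fun z hz => ?_
      have hz1 : 2 * R < ‖z‖ := by
        rw [mem_compl_iff, mem_closedBall_zero_iff, not_le] at hz
        exact hz
      have hz0 : z ≠ 0 := by
        intro h
        rw [h, norm_zero] at hz1
        linarith
      have hzn : 0 < ‖z‖ := norm_pos_iff.2 hz0
      have hne : ∀ x ∈ P, z - x ≠ 0 := by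
        intro x hx h
        have h2 := hR x hx
        rw [sub_eq_zero.1 h] at hz1
        linarith
      have e1 : ∑ x ∈ P, a x / (z - x) = ∑ x ∈ P, a x * x ^ 2 / (z ^ 2 * (z - x)) := by
        have e2 : ∀ x ∈ P, a x / (z - x) = (a x) * (1 / z) + (a x * x) * (1 / z ^ 2) +
            a x * x ^ 2 / (z ^ 2 * (z - x)) := by
          intro x hx
          have := hne x hx
          field_simp
          ring
        rw [Finset.sum_congr rfl e2, Finset.sum_add_distrib, Finset.sum_add_distrib,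
          ← Finset.sum_mul, ← Finset.sum_mul, h0, h1]
        ring
      show ‖∑ x ∈ P, a x / (z - x)‖ ≤ 16 * M * R ^ 2 * (1 + ‖z‖) ^ (-(3 : ℝ))
      rw [e1]
      have e3 : ∀ x ∈ P, ‖a x * x ^ 2 / (z ^ 2 * (z - x))‖ ≤ ‖a x‖ * (2 * R ^ 2 / ‖z‖ ^ 3) := by
        intro x hx
        rw [norm_div, norm_mul, norm_mul, norm_pow, norm_pow]
        have h2 := hR x hx
        have h3 : ‖z‖ / 2 ≤ ‖z - x‖ := by
          have := norm_sub_norm_le z x
          linarith
        have h4 : ‖x‖ ^ 2 ≤ R ^ 2 := pow_le_pow_left₀ (norm_nonneg _) h2 2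
        calc ‖a x‖ * ‖x‖ ^ 2 / (‖z‖ ^ 2 * ‖z - x‖) ≤ ‖a x‖ * R ^ 2 / (‖z‖ ^ 2 * (‖z‖ / 2)) := by
              gcongr
          _ = ‖a x‖ * (2 * R ^ 2 / ‖z‖ ^ 3) := by
              field_simp
      have e4 : ‖∑ x ∈ P, a x * x ^ 2 / (z ^ 2 * (z - x))‖ ≤ M * (2 * R ^ 2 / ‖z‖ ^ 3) := by
        refine (norm_sum_le _ _).trans ?_
        rw [hM, Finset.sum_mul]
        exact Finset.sum_le_sum e3
      refine e4.trans ?_
      have e5 : (1 + ‖z‖) ^ (-(3 : ℝ)) = 1 / (1 + ‖z‖) ^ 3 := by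
        rw [Real.rpow_neg (by positivity), one_div]
        norm_cast
      rw [e5]
      have e6 : (1 + ‖z‖) ^ 3 ≤ 8 * ‖z‖ ^ 3 := by
        have : 1 + ‖z‖ ≤ 2 * ‖z‖ := by linarith
        calc (1 + ‖z‖) ^ 3 ≤ (2 * ‖z‖) ^ 3 := pow_le_pow_left₀ (by positivity) this 3
          _ = 8 * ‖z‖ ^ 3 := by ring
      have e7 : 2 * R ^ 2 / ‖z‖ ^ 3 ≤ 16 * R ^ 2 * (1 / (1 + ‖z‖) ^ 3) := by
        rw [mul_one_div, div_le_div_iff₀ (by positivity) (by positivity)]
        nlinarith [sq_nonneg R, mul_le_mul_of_nonneg_left e6 (by positivity : (0 : ℝ) ≤ 2 * R ^ 2)]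
      calc M * (2 * R ^ 2 / ‖z‖ ^ 3) ≤ M * (16 * R ^ 2 * (1 / (1 + ‖z‖) ^ 3)) :=
            mul_le_mul_of_nonneg_left e7 hM0
        _ = 16 * M * R ^ 2 * (1 / (1 + ‖z‖) ^ 3) := by ring
  have := hA.union hB
  rwa [union_compl_self, integrableOn_univ] at this

/-- the determinant of the multiplication by a complex number -/
theorem det_mul (c : ℂ) :
    (((ContinuousLinearMap.toSpanSingleton ℂ c).restrictScalars ℝ : ℂ →L[ℝ] ℂ)).det = Complex.normSq c := by
  have h1 : (((ContinuousLinearMap.toSpanSingleton ℂ c).restrictScalars ℝ : ℂ →L[ℝ] ℂ) : ℂ →ₗ[ℝ] ℂ) =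
      LinearMap.mulLeft ℝ c := by
    apply LinearMap.ext
    intro z
    show z • c = c * z
    rw [smul_eq_mul, mul_comm]
  show LinearMap.det _ = _
  rw [h1, ← Algebra.norm_complex_apply, Algebra.norm_apply]
  rfl

/-- the change of variables for one branch -/
theorem branch (f f' : ℂ → ℂ) (s : Set ℂ) (hs : MeasurableSet s) (hd : ∀ z ∈ s, HasDerivAt f (f' z) z)
    (hinj : InjOn f s) (g : ℂ → ℝ≥0∞) (hg : Measurable g) :
    ∃ F : ℂ → ℝ≥0∞, Measurable F ∧ (∀ z ∈ s, F (f z) = g z) ∧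
      ∫⁻ w, F w = ∫⁻ z in s, ENNReal.ofReal (Complex.normSq (f' z)) * g z := by
  have hd' : ∀ z ∈ s, HasFDerivWithinAt f
      ((ContinuousLinearMap.toSpanSingleton ℂ (f' z)).restrictScalars ℝ : ℂ →L[ℝ] ℂ) s z := by
    intro z hz
    exact ((hd z hz).hasFDerivAt.restrictScalars ℝ).hasFDerivWithinAt
  have hemb := measurableEmbedding_of_fderivWithin hs hd' hinj
  let F : ℂ → ℝ≥0∞ := Function.extend (s.domRestrict f) (fun z : s => g z) (fun _ => 0)
  have hFm : Measurable F := hemb.measurable_extend (hg.comp measurable_subtype_coe) measurable_const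
  have hF1 : ∀ z ∈ s, F (f z) = g z := by
    intro z hz
    exact hemb.injective.extend_apply (fun z : s => g z) (fun _ => 0) ⟨z, hz⟩
  refine ⟨F, hFm, hF1, ?_⟩
  have h1 : ∫⁻ w, F w = ∫⁻ w in f '' s, F w := by
    rw [← lintegral_indicator (measurable_image_of_fderivWithin hs hd' hinj)]
    congr 1
    funext w
    by_cases hw : w ∈ f '' s
    · rw [indicator_of_mem hw]
    · rw [indicator_of_notMem hw]
      refine Function.extend_apply' _ _ _ ?_
      rintro ⟨⟨z, hz⟩, hzw⟩
      exact hw ⟨z, hz, hzw⟩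
  rw [h1, lintegral_image_eq_lintegral_abs_det_fderiv_mul volume hs hd' hinj]
  refine setLIntegral_congr_fun hs fun z hz => ?_
  rw [hF1 z hz, det_mul, abs_of_nonneg (Complex.normSq_nonneg _)]

/-- the area formula, as an inequality -/
theorem area (f f' : ℂ → ℂ) (U : Set ℂ) (hU : IsOpen U) (hd : ∀ z ∈ U, HasStrictDerivAt f (f' z) z)
    (hne : ∀ z ∈ U, f' z ≠ 0) (g : ℂ → ℝ≥0∞) (hg : Measurable g) :
    ∃ F : ℂ → ℝ≥0∞, Measurable F ∧
      (∀ (t : Finset ℂ) (w : ℂ), (∀ z ∈ t, z ∈ U ∧ f z = w) → ∑ z ∈ t, g z ≤ F w) ∧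
      ∫⁻ w, F w = ∫⁻ z in U, ENNReal.ofReal (Complex.normSq (f' z)) * g z := by
  classical
  have h1 : ∀ z ∈ U, ∃ W : Set ℂ, IsOpen W ∧ z ∈ W ∧ W ⊆ U ∧ InjOn f W := by
    intro z hz
    have h2 := (hd z hz).hasStrictFDerivAt_equiv (hne z hz)
    refine ⟨(h2.toOpenPartialHomeomorph f).source ∩ U, (h2.toOpenPartialHomeomorph f).open_source.inter hU,
      ⟨h2.mem_toOpenPartialHomeomorph_source, hz⟩, inter_subset_right, ?_⟩
    exact (h2.toOpenPartialHomeomorph f).injOn.mono inter_subset_left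
  choose! W hW1 hW2 hW3 hW4 using h1
  obtain ⟨t, htU, htc, htcov⟩ := TopologicalSpace.countable_cover_nhdsWithin
    (f := W) (s := U) (fun z hz => mem_nhdsWithin_of_mem_nhds ((hW1 z hz).mem_nhds (hW2 z hz)))
  obtain ⟨V, hV1, hV2, hV3⟩ : ∃ V : ℕ → Set ℂ, (∀ j, MeasurableSet (V j)) ∧
      (∀ j, V j ⊆ U ∧ InjOn f (V j)) ∧ ⋃ j, V j = U := by
    rcases t.eq_empty_or_nonempty with ht | ht
    · refine ⟨fun _ => ∅, fun _ => MeasurableSet.empty, fun _ => ⟨empty_subset _, injOn_empty _⟩, ?_⟩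
      rw [ht] at htcov
      simp only [iUnion_empty]
      simp only [mem_empty_iff_false, iUnion_of_empty, iUnion_empty] at htcov
      exact (subset_empty_iff.1 htcov).symm
    · obtain ⟨e, he⟩ := htc.exists_eq_range ht
      refine ⟨fun j => W (e j), fun j => ?_, fun j => ?_, ?_⟩
      · exact (hW1 _ (htU (he ▸ mem_range_self j))).measurableSet
      · exact ⟨hW3 _ (htU (he ▸ mem_range_self j)), hW4 _ (htU (he ▸ mem_range_self j))⟩
      · apply subset_antisymm
        · exact iUnion_subset fun j => hW3 _ (htU (he ▸ mem_range_self j))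
        · refine htcov.trans ?_
          rw [he]
          simp only [mem_range, iUnion_exists, iUnion_iUnion_eq']
          exact subset_rfl
  have hm : ∀ j, MeasurableSet (disjointed V j) := fun j => MeasurableSet.disjointed hV1 j
  have hsub : ∀ j, disjointed V j ⊆ U := fun j => (disjointed_subset V j).trans (hV2 j).1
  have hinj : ∀ j, InjOn f (disjointed V j) := fun j => (hV2 j).2.mono (disjointed_subset V j)
  have hbr : ∀ j, ∃ F : ℂ → ℝ≥0∞, Measurable F ∧ (∀ z ∈ disjointed V j, F (f z) = g z) ∧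
      ∫⁻ w, F w = ∫⁻ z in disjointed V j, ENNReal.ofReal (Complex.normSq (f' z)) * g z := fun j =>
    branch f f' _ (hm j) (fun z hz => (hd z (hsub j hz)).hasDerivAt) (hinj j) g hg
  choose F hF1 hF2 hF3 using hbr
  refine ⟨fun w => ∑' j, F j w, Measurable.ennreal_tsum hF1, ?_, ?_⟩
  · intro t w ht
    have h2 : ∀ z ∈ t, ∃ j, z ∈ disjointed V j := by
      intro z hz
      have h3 : z ∈ ⋃ j, disjointed V j := by
        rw [iUnion_disjointed, hV3]
        exact (ht z hz).1
      exact mem_iUnion.1 h3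
    choose! J hJ using h2
    have hJi : Set.InjOn J t := by
      intro z hz z' hz' h
      have h3 := hJ z hz
      have h4 := hJ z' hz'
      rw [← h] at h4
      exact hinj _ h3 h4 ((ht z hz).2.trans (ht z' hz').2.symm)
    calc ∑ z ∈ t, g z = ∑ z ∈ t, F (J z) w := by
          refine Finset.sum_congr rfl fun z hz => ?_
          rw [← (ht z hz).2]
          exact (hF2 (J z) z (hJ z hz)).symm
      _ = ∑ j ∈ t.image J, F j w := (Finset.sum_image (f := fun j => F j w) hJi).symm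
      _ ≤ ∑' j, F j w := ENNReal.sum_le_tsum _
  · rw [lintegral_tsum fun j => (hF1 j).aemeasurable]
    rw [← hV3, ← iUnion_disjointed, lintegral_iUnion hm (disjoint_disjointed V)]
    exact tsum_congr hF3

end Pool.Agent.Q177.OP.Ana
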