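import Pool.Agent.Q103.OP.Defs
import Pool.Agent.Q177.OP.AnaA

/-!
# Project OP, job ANA: the area contraction
-/

set_option autoImplicit false
set_option linter.unusedSectionVars false
set_option linter.unusedVariables false
set_option linter.style.longLine false

namespace Pool.Agent.Q177.OP.Ana

open MeasureTheory Set Filter Topology Polynomial Pool.Agent.Q103.OP
open scoped ENNReal

variable {d : ℕ} {p q : ℂ[X]} {P : Finset ℂ}

/-- the fibres -/
theorem fib (h : Pcf d p q P) (w : ℂ) (hw : w ∉ P) (hwd : w ≠ p.coeff d) :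
    ∃ t : Finset ℂ, t.card = d ∧ (∀ z, z ∈ t ↔ q.eval z ≠ 0 ∧ p.eval z / q.eval z = w) ∧
      (∀ z ∈ t, (Wr p q).eval z ≠ 0) ∧
      ∀ g : ℂ → ℂ, ((p - C w * q).roots.map g).sum = ∑ z ∈ t, g z := by
  classical
  have hd0 : d ≠ 0 := by
    have := h.two_le
    omega
  have hqd : q.coeff d = 1 := by
    have := h.monic
    rw [Monic, leadingCoeff, h.degq] at this
    exact this
  have hcd : (p - C w * q).coeff d ≠ 0 := by
    rw [coeff_sub, coeff_C_mul, hqd, mul_one]
    exact sub_ne_zero.2 hwd.symm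
  have hdeg : (p - C w * q).natDegree = d := by
    refine le_antisymm ?_ (le_natDegree_of_ne_zero hcd)
    refine (natDegree_sub_le _ _).trans (max_le h.degp ?_)
    exact (natDegree_C_mul_le _ _).trans h.degq.le
  have hne : p - C w * q ≠ 0 := by
    intro h0
    rw [h0, coeff_zero] at hcd
    exact hcd rfl
  have hroot : ∀ z, z ∈ (p - C w * q).roots ↔ q.eval z ≠ 0 ∧ p.eval z / q.eval z = w := by
    intro z
    rw [mem_roots hne, IsRoot, eval_sub, eval_mul, eval_C]
    constructor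
    · intro h1
      have hq : q.eval z ≠ 0 := by
        intro hq
        rw [hq, mul_zero, sub_zero] at h1
        obtain ⟨u, v, huv⟩ := h.cop
        have h2 := congrArg (eval z) huv
        rw [eval_add, eval_mul, eval_mul, h1, hq, mul_zero, mul_zero, add_zero, eval_one] at h2
        exact zero_ne_one h2
      refine ⟨hq, ?_⟩
      rw [div_eq_iff hq]
      exact sub_eq_zero.1 h1
    · rintro ⟨hq, h1⟩
      rw [div_eq_iff hq] at h1
      rw [h1, sub_self]
  have hWr : ∀ z, z ∈ (p - C w * q).roots → (Wr p q).eval z ≠ 0 := by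
    intro z hz hW
    have h1 := (hroot z).1 hz
    have h2 := (h.crit z hW).2
    rw [h1.2] at h2
    exact hw h2
  have hnd : (p - C w * q).roots.Nodup := by
    rw [Multiset.nodup_iff_count_le_one]
    intro z
    rw [count_roots]
    by_contra hcon
    push Not at hcon
    rw [one_lt_rootMultiplicity_iff_isRoot hne] at hcon
    obtain ⟨h2, h1⟩ := hcon
    have hz : z ∈ (p - C w * q).roots := (mem_roots hne).2 h2
    apply hWr z hz
    have h3 := (hroot z).1 hz
    have h4 : (derivative p).eval z = w * (derivative q).eval z := by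
      have h5 := h1
      rw [IsRoot] at h5
      simp only [derivative_sub, derivative_mul, derivative_C, zero_mul, zero_add, eval_sub,
        eval_mul, eval_C] at h5
      exact sub_eq_zero.1 h5
    rw [Wr, eval_sub, eval_mul, eval_mul, h4]
    have h6 := (div_eq_iff h3.1).1 h3.2
    rw [h6]
    ring
  refine ⟨(p - C w * q).roots.toFinset, ?_, ?_, ?_, ?_⟩
  · rw [Multiset.toFinset_card_of_nodup hnd]
    have h1 := splits_iff_card_roots.1 (IsAlgClosed.splits (p - C w * q))
    rw [h1, hdeg]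
  · intro z
    rw [Multiset.mem_toFinset, hroot]
  · intro z hz
    rw [Multiset.mem_toFinset] at hz
    exact hWr z hz
  · intro g
    rw [Finset.sum_multiset_map_count]
    refine Finset.sum_congr rfl fun z hz => ?_
    rw [Multiset.mem_toFinset] at hz
    rw [Multiset.count_eq_one_of_mem hnd hz, one_smul]

/-- the equality case of the triangle inequality -/
theorem tri_eq {ι : Type*} (t : Finset ι) (u : ι → ℂ) (s : ℂ) (hs : ∑ i ∈ t, u i = s)
    (h : ∑ i ∈ t, ‖u i‖ ≤ ‖s‖) : ∀ i ∈ t, (u i / s).im = 0 := by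
  classical
  intro i hi
  by_cases hs0 : s = 0
  · rw [hs0, div_zero, Complex.zero_im]
  have h1 : ∀ j ∈ t, (u j * (starRingEnd ℂ) s).re ≤ ‖u j‖ * ‖s‖ := by
    intro j _
    have h2 := Complex.re_le_norm (u j * (starRingEnd ℂ) s)
    rw [norm_mul, Complex.norm_conj] at h2
    exact h2
  have h3 : ∑ j ∈ t, (u j * (starRingEnd ℂ) s).re = ‖s‖ * ‖s‖ := by
    rw [← Complex.re_sum, ← Finset.sum_mul, hs, Complex.mul_conj, Complex.ofReal_re,
      Complex.normSq_eq_norm_sq, sq]
  have h4 : ∑ j ∈ t, ‖u j‖ * ‖s‖ ≤ ‖s‖ * ‖s‖ := by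
    rw [← Finset.sum_mul]
    exact mul_le_mul_of_nonneg_right h (norm_nonneg _)
  have h5 : ∑ j ∈ t, (u j * (starRingEnd ℂ) s).re = ∑ j ∈ t, ‖u j‖ * ‖s‖ :=
    le_antisymm (Finset.sum_le_sum h1) (h3 ▸ h4)
  have h6 := (Finset.sum_eq_sum_iff_of_le h1).1 h5 i hi
  have h7 : (u i * (starRingEnd ℂ) s).im = 0 := by
    rw [← Complex.abs_re_eq_norm, h6, norm_mul, Complex.norm_conj, abs_of_nonneg]
    exact mul_nonneg (norm_nonneg _) (norm_nonneg _)
  have h8 : u i / s = (u i * (starRingEnd ℂ) s) * (((Complex.normSq s)⁻¹ : ℝ) : ℂ) := by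
    rw [div_eq_mul_inv, Complex.inv_def]
    ring
  rw [h8, Complex.im_mul_ofReal, h7, zero_mul]

/-- the zeros of the quadratic differential -/
theorem zeros (P : Finset ℂ) (a : ℂ → ℂ) (ha : ∃ x ∈ P, a x ≠ 0) :
    ∃ Z : Finset ℂ, ∀ w, w ∉ P → w ∉ Z → qd P a w ≠ 0 := by
  classical
  let N : ℂ[X] := ∑ x ∈ P, C (a x) * ∏ y ∈ P.erase x, (X - C y)
  have hN : N ≠ 0 := by
    obtain ⟨x, hx, hax⟩ := ha
    intro h0
    have h1 : N.eval x = a x * ∏ y ∈ P.erase x, (x - y) := by
      simp only [N]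
      rw [eval_finset_sum, Finset.sum_eq_single x]
      · rw [eval_mul, eval_C, eval_prod]
        simp
      · intro b hb hbx
        rw [eval_mul, eval_prod]
        have : x ∈ P.erase b := Finset.mem_erase.2 ⟨hbx.symm, hx⟩
        rw [Finset.prod_eq_zero this (by simp), mul_zero]
      · intro h
        exact absurd hx h
    rw [h0, eval_zero] at h1
    have h2 : ∏ y ∈ P.erase x, (x - y) ≠ 0 := by
      rw [Finset.prod_ne_zero_iff]
      intro y hy
      exact sub_ne_zero.2 (Finset.ne_of_mem_erase hy).symm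
    exact mul_ne_zero hax h2 h1.symm
  refine ⟨N.roots.toFinset, fun w hw hwZ h0 => hwZ ?_⟩
  rw [Multiset.mem_toFinset, mem_roots hN, IsRoot]
  have h1 : N.eval w = qd P a w * ∏ y ∈ P, (w - y) := by
    simp only [N]
    rw [eval_finset_sum, qd, Finset.sum_mul]
    refine Finset.sum_congr rfl fun x hx => ?_
    rw [eval_mul, eval_C, eval_prod, ← Finset.mul_prod_erase P _ hx]
    have : w - x ≠ 0 := by
      intro h
      rw [sub_eq_zero.1 h] at hw
      exact hw hx
    simp only [eval_sub, eval_X, eval_C]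
    field_simp
  rw [h1, h0, zero_mul]

theorem hasD (p q : ℂ[X]) (z : ℂ) (hq : q.eval z ≠ 0) :
    HasStrictDerivAt (fun z => p.eval z / q.eval z) ((Wr p q).eval z / q.eval z ^ 2) z := by
  have h1 := (p.hasStrictDerivAt z).div (q.hasStrictDerivAt z) hq
  have h2 : (Wr p q).eval z / q.eval z ^ 2 = (eval z (derivative p) * eval z q - eval z p * eval z (derivative q)) / eval z q ^ 2 := by
    rw [Wr, eval_sub, eval_mul, eval_mul]
  rw [h2]
  exact h1

/-- preimages of finite sets are finite -/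
theorem pre_fin (h : Pcf d p q P) (B : Finset ℂ) :
    ∃ E : Finset ℂ, ∀ z, z ∉ E → q.eval z ≠ 0 → p.eval z / q.eval z ∉ B := by
  classical
  have hqd : q.coeff d = 1 := by
    have := h.monic
    rw [Monic, leadingCoeff, h.degq] at this
    exact this
  have hne : ∀ w : ℂ, p - C w * q ≠ 0 := by
    intro w h0
    have h1 : p = C w * q := sub_eq_zero.1 h0
    have h2 : q ∣ p := ⟨C w, by rw [h1, mul_comm]⟩
    have h3 : IsUnit q := h.cop.isUnit_of_dvd' h2 dvd_rfl
    have h4 := natDegree_eq_zero_of_isUnit h3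
    have := h.two_le
    rw [h.degq] at h4
    omega
  refine ⟨B.biUnion fun w => (p - C w * q).roots.toFinset, fun z hz hq hB => hz ?_⟩
  rw [Finset.mem_biUnion]
  refine ⟨_, hB, ?_⟩
  rw [Multiset.mem_toFinset, mem_roots (hne _), IsRoot, eval_sub, eval_mul, eval_C,
    div_mul_cancel₀ _ hq, sub_self]

theorem qd_meas (P : Finset ℂ) (a : ℂ → ℂ) : Measurable (qd P a) := by
  refine Finset.measurable_sum _ fun x _ => ?_
  exact (measurable_const).div (measurable_id.sub_const x)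

theorem qd_diff (P : Finset ℂ) (a : ℂ → ℂ) (w : ℂ) (hw : w ∉ P) : DifferentiableAt ℂ (qd P a) w := by
  have h : qd P a = fun z => ∑ x ∈ P, a x / (z - x) := rfl
  rw [h]
  refine DifferentiableAt.fun_sum fun x hx => ?_
  refine (differentiableAt_const _).div (differentiableAt_id.sub_const x) ?_
  intro h0
  have h1 : w = x := sub_eq_zero.1 h0
  rw [h1] at hw
  exact hw hx

/-- almost everywhere equality in the triangle inequality -/
theorem ae_eq (h : Pcf d p q P) (a : ℂ → ℂ) (hQ : Qd P a)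
    (hpush : ∀ w, w ∉ P → w ≠ p.coeff d → push p q P a w = qd P a w) :
    ∀ᵐ w : ℂ, w ∉ P → w ≠ p.coeff d → ∀ z, q.eval z ≠ 0 → p.eval z / q.eval z = w →
      (qd P a z / ((Wr p q).eval z / q.eval z ^ 2) ^ 2 / qd P a w).im = 0 := by
  classical
  set f : ℂ → ℂ := fun z => p.eval z / q.eval z with hf
  set f' : ℂ → ℂ := fun z => (Wr p q).eval z / q.eval z ^ 2 with hf'
  set U : Set ℂ := {z | q.eval z ≠ 0 ∧ (Wr p q).eval z ≠ 0} with hU
  have hUo : IsOpen U := (isOpen_ne_fun q.continuous continuous_const).inter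
    (isOpen_ne_fun (Wr p q).continuous continuous_const)
  set g : ℂ → ℝ≥0∞ := fun z => ENNReal.ofReal (‖qd P a z‖ / Complex.normSq (f' z)) with hg
  have hf'm : Measurable f' := (Wr p q).continuous.measurable.div (q.continuous.measurable.pow_const 2)
  have hgm : Measurable g := by
    refine ENNReal.measurable_ofReal.comp ?_
    exact (qd_meas P a).norm.div (Complex.continuous_normSq.measurable.comp hf'm)
  obtain ⟨F, hF1, hF2, hF3⟩ := area f f' U hUo (fun z hz => hasD p q z hz.1) (fun z hz =>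
    div_ne_zero hz.2 (pow_ne_zero 2 hz.1)) g hgm
  have hint : ∫⁻ w, ENNReal.ofReal ‖qd P a w‖ ≠ ∞ := by
    have h1 := (int_qd P a hQ.1 hQ.2.1).norm
    have h2 := h1.lintegral_lt_top
    exact h2.ne
  have hle : ∫⁻ w, F w ≤ ∫⁻ w, ENNReal.ofReal ‖qd P a w‖ := by
    rw [hF3]
    have h1 : ∫⁻ z in U, ENNReal.ofReal (Complex.normSq (f' z)) * g z =
        ∫⁻ z in U, ENNReal.ofReal ‖qd P a z‖ := by
      refine setLIntegral_congr_fun hUo.measurableSet fun z hz => ?_
      have h2 : Complex.normSq (f' z) ≠ 0 := by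
        rw [ne_eq, Complex.normSq_eq_zero]
        exact div_ne_zero hz.2 (pow_ne_zero 2 hz.1)
      show ENNReal.ofReal (Complex.normSq (f' z)) * ENNReal.ofReal (‖qd P a z‖ / Complex.normSq (f' z)) = _
      rw [← ENNReal.ofReal_mul (Complex.normSq_nonneg _), mul_div_cancel₀ _ h2]
    rw [h1]
    exact setLIntegral_le_lintegral _ _
  -- pointwise
  have hpt : ∀ w, w ∉ P → w ≠ p.coeff d → ∃ t : Finset ℂ,
      (∀ z, z ∈ t ↔ q.eval z ≠ 0 ∧ p.eval z / q.eval z = w) ∧
      ∑ z ∈ t, qd P a z / (f' z) ^ 2 = qd P a w ∧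
      ENNReal.ofReal (∑ z ∈ t, ‖qd P a z / (f' z) ^ 2‖) ≤ F w := by
    intro w hw hwd
    obtain ⟨t, ht1, ht2, ht3, ht4⟩ := fib h w hw hwd
    refine ⟨t, ht2, ?_, ?_⟩
    · rw [← hpush w hw hwd, push, ht4]
    · have h1 := hF2 t w (fun z hz => ⟨⟨((ht2 z).1 hz).1, ht3 z hz⟩, ((ht2 z).1 hz).2⟩)
      refine le_trans (le_of_eq ?_) h1
      rw [ENNReal.ofReal_sum_of_nonneg fun z _ => norm_nonneg _]
      refine Finset.sum_congr rfl fun z _ => ?_
      show ENNReal.ofReal ‖qd P a z / (f' z) ^ 2‖ = ENNReal.ofReal (‖qd P a z‖ / Complex.normSq (f' z))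
      rw [norm_div, norm_pow, Complex.normSq_eq_norm_sq]
  have hae0 : ∀ᵐ w : ℂ, w ∉ P ∧ w ≠ p.coeff d := by
    have h1 : (volume : Measure ℂ) ((insert (p.coeff d) P : Finset ℂ) : Set ℂ) = 0 :=
      Finset.measure_zero _ _
    have h2 := compl_mem_ae_iff.2 h1
    filter_upwards [h2] with w hw
    have h3 : w ∉ insert (p.coeff d) P := hw
    rw [Finset.mem_insert, not_or] at h3
    exact ⟨h3.2, h3.1⟩
  have hae1 : (fun w => ENNReal.ofReal ‖qd P a w‖) ≤ᵐ[volume] F := by
    filter_upwards [hae0] with w hw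
    obtain ⟨t, ht1, ht2, ht3⟩ := hpt w hw.1 hw.2
    refine le_trans (ENNReal.ofReal_le_ofReal ?_) ht3
    rw [← ht2]
    exact norm_sum_le _ _
  have hae2 := ae_eq_of_ae_le_of_lintegral_le hae1 hint hF1.aemeasurable hle
  filter_upwards [hae2] with w hw hwP hwd z hz1 hz2
  obtain ⟨t, ht1, ht2, ht3⟩ := hpt w hwP hwd
  have h1 : ENNReal.ofReal (∑ z ∈ t, ‖qd P a z / (f' z) ^ 2‖) ≤ ENNReal.ofReal ‖qd P a w‖ := by
    rw [hw]
    exact ht3
  have h2 := (ENNReal.ofReal_le_ofReal_iff (norm_nonneg _)).1 h1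
  exact tri_eq t _ _ ht2 h2 z ((ht1 z).2 ⟨hz1, hz2⟩)

end Pool.Agent.Q177.OP.Ana

namespace Pool.Agent.Q177.OP

open MeasureTheory Set Filter Topology Polynomial Pool.Agent.Q103.OP Pool.Agent.Q177.OP.Ana

theorem t_ANA : S_ANA := by
  classical
  intro d p q P h a ha hQ hpush
  obtain ⟨Z, hZ⟩ := zeros P a ha
  obtain ⟨E1, hE1⟩ := pre_fin h (P ∪ Z ∪ {p.coeff d})
  have hqne : q ≠ 0 := h.monic.ne_zero
  have hWne : Wr p q ≠ 0 := by
    intro h0
    have h1 := h.degW
    have h2 := h.two_le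
    rw [h0, natDegree_zero] at h1
    omega
  set E : Finset ℂ := E1 ∪ P ∪ q.roots.toFinset ∪ (Wr p q).roots.toFinset with hE
  have hEprop : ∀ z, z ∉ E → q.eval z ≠ 0 ∧ (Wr p q).eval z ≠ 0 ∧ z ∉ P ∧
      p.eval z / q.eval z ∉ P ∧ p.eval z / q.eval z ≠ p.coeff d ∧
      qd P a (p.eval z / q.eval z) ≠ 0 := by
    intro z hz
    rw [hE, Finset.mem_union, Finset.mem_union, Finset.mem_union, not_or, not_or, not_or] at hz
    obtain ⟨⟨⟨h1, h2⟩, h3⟩, h4⟩ := hz
    rw [Multiset.mem_toFinset, mem_roots hqne] at h3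
    rw [Multiset.mem_toFinset, mem_roots hWne] at h4
    have h5 := hE1 z h1 h3
    rw [Finset.mem_union, Finset.mem_union, Finset.mem_singleton, not_or, not_or] at h5
    exact ⟨h3, h4, h2, h5.1.1, h5.2, hZ _ h5.1.1 h5.1.2⟩
  set V : Set ℂ := ((E : Set ℂ))ᶜ with hV
  have hVo : IsOpen V := E.finite_toSet.isClosed.isOpen_compl
  set ρ : ℂ → ℂ := fun z => qd P a z / ((Wr p q).eval z / q.eval z ^ 2) ^ 2 /
    qd P a (p.eval z / q.eval z) with hρ
  have hρd : DifferentiableOn ℂ ρ V := by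
    intro z hz
    obtain ⟨h1, h2, h3, h4, h5, h6⟩ := hEprop z hz
    have e1 := (hasD p q z h1).hasDerivAt.differentiableAt
    have e2 : DifferentiableAt ℂ (fun z => qd P a (p.eval z / q.eval z)) z :=
      DifferentiableAt.comp (g := qd P a) (f := fun z => p.eval z / q.eval z) z
        (qd_diff P a _ h4) e1
    have e3 : DifferentiableAt ℂ (fun z => ((Wr p q).eval z / q.eval z ^ 2) ^ 2) z :=
      (((Wr p q).differentiableAt).div (q.differentiableAt.pow 2) (pow_ne_zero 2 h1)).pow 2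
    exact (((qd_diff P a z h3).div e3 (pow_ne_zero 2 (div_ne_zero h2 (pow_ne_zero 2 h1)))).div e2
      h6).differentiableWithinAt
  have hρa : AnalyticOnNhd ℂ ρ V := hρd.analyticOnNhd hVo
  have hdense := Measure.dense_of_ae (ae_eq h a hQ hpush)
  have hreal : ∀ z ∈ V, (ρ z).im = 0 := by
    intro z₀ hz₀
    by_contra hcon
    obtain ⟨h1, h2, h3, h4, h5, h6⟩ := hEprop z₀ hz₀
    have hcont : ContinuousAt (fun z => (ρ z).im) z₀ :=
      Complex.continuous_im.continuousAt.comp (hρa z₀ hz₀).continuousAt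
    have hB : {z | z ∈ V ∧ (ρ z).im ≠ 0} ∈ 𝓝 z₀ :=
      inter_mem (hVo.mem_nhds hz₀) (hcont.eventually_ne hcon)
    have hmap := (hasD p q z₀ h1).map_nhds_eq (div_ne_zero h2 (pow_ne_zero 2 h1))
    have hB2 : (fun z => p.eval z / q.eval z) '' {z | z ∈ V ∧ (ρ z).im ≠ 0} ∈
        𝓝 (p.eval z₀ / q.eval z₀) := by
      rw [← hmap]
      exact image_mem_map hB
    obtain ⟨w, hw1, hw2⟩ := hdense.inter_nhds_nonempty hB2
    obtain ⟨z, ⟨hzV, hz2⟩, rfl⟩ := hw2
    obtain ⟨k1, k2, k3, k4, k5, k6⟩ := hEprop z hzV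
    exact hz2 (hw1 k4 k5 z k1 rfl)
  have hVc : IsPreconnected V := by
    refine (Set.Countable.isConnected_compl_of_one_lt_rank ?_ E.finite_toSet.countable).isPreconnected
    rw [Complex.rank_real_complex]
    norm_num
  have hVne : V.Nonempty := by
    obtain ⟨z, hz⟩ := Infinite.exists_notMem_finset E
    exact ⟨z, hz⟩
  obtain ⟨c, hc⟩ : ∃ c, ∀ z ∈ V, ρ z = c := by
    rcases hρa.is_constant_or_isOpen hVc with h1 | h1
    · exact h1
    · exfalso
      have h2 := h1 V subset_rfl hVo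
      obtain ⟨z, hz⟩ := hVne
      obtain ⟨ε, hε, hball⟩ := Metric.isOpen_iff.1 h2 (ρ z) ⟨z, hz, rfl⟩
      have h3 : ρ z + (ε / 2 : ℝ) * Complex.I ∈ Metric.ball (ρ z) ε := by
        rw [Metric.mem_ball, dist_eq_norm, add_sub_cancel_left, norm_mul, Complex.norm_I, mul_one,
          Complex.norm_real, Real.norm_eq_abs, abs_of_pos (by linarith)]
        linarith
      obtain ⟨z', hz', h4⟩ := hball h3
      have h5 := hreal z' hz'
      have h6 : (((ε / 2 : ℝ) : ℂ) * Complex.I).im = ε / 2 := by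
        rw [Complex.mul_I_im, Complex.ofReal_re]
      rw [h4, Complex.add_im, hreal z hz, h6] at h5
      linarith
  -- the constant
  have hcd : (d : ℂ) * c = 1 := by
    obtain ⟨w, hw⟩ := Infinite.exists_notMem_finset
      (P ∪ Z ∪ {p.coeff d} ∪ E.image fun z => p.eval z / q.eval z)
    rw [Finset.mem_union, Finset.mem_union, Finset.mem_union, Finset.mem_singleton, not_or, not_or,
      not_or] at hw
    obtain ⟨⟨⟨h1, h2⟩, h3⟩, h4⟩ := hw
    obtain ⟨t, ht1, ht2, ht3, ht4⟩ := fib h w h1 h3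
    have h5 := hpush w h1 h3
    rw [push, ht4] at h5
    have h6 := hZ w h1 h2
    have h7 : ∀ z ∈ t, qd P a z / ((Wr p q).eval z / q.eval z ^ 2) ^ 2 = c * qd P a w := by
      intro z hz
      obtain ⟨k1, k2⟩ := (ht2 z).1 hz
      have hzV : z ∈ V := by
        intro hzE
        apply h4
        rw [Finset.mem_image]
        exact ⟨z, hzE, k2⟩
      have h8 := hc z hzV
      simp only [hρ] at h8
      rw [k2] at h8
      rw [← h8, div_mul_cancel₀ _ h6]
    rw [Finset.sum_congr rfl h7, Finset.sum_const, ht1, nsmul_eq_mul] at h5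
    have h9 : (d : ℂ) * c * qd P a w = 1 * qd P a w := by
      rw [one_mul, mul_assoc]
      exact h5
    exact mul_right_cancel₀ h6 h9
  refine ⟨E, fun z hz => ?_⟩
  obtain ⟨h1, h2, h3, h4, h5, h6⟩ := hEprop z hz
  have h7 := hc z hz
  simp only [hρ] at h7
  have h8 : ((Wr p q).eval z / q.eval z ^ 2) ^ 2 ≠ 0 :=
    pow_ne_zero 2 (div_ne_zero h2 (pow_ne_zero 2 h1))
  rw [div_eq_iff h6, div_eq_iff h8] at h7
  rw [h7]
  linear_combination (-(qd P a (p.eval z / q.eval z) * ((Wr p q).eval z / q.eval z ^ 2) ^ 2)) * hcd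

end Pool.Agent.Q177.OP
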