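import Pool.Agent.Q177.OP.PcfD
import Pool.Agent.TH450.FG.C
import Pool.Agent.W277.UB.Gen

/-!
# Project OP, job PCF: maps with constant multipliers have finite critical orbits
-/

set_option autoImplicit false
set_option linter.unusedSectionVars false
set_option linter.unusedVariables false
set_option linter.style.longLine false

namespace Pool.Agent.Q177.OP.Pcf

open Pool.Agent.W277.UB Pool.Agent.W277.UH Finset Polynomial Pool.Agent.Q103.OP
open Pool.Agent.Y706.CH (bK)

universe u w

section mk

variable {K : Type u} [Field K]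

/-- the absolute value of an additive valuation -/
noncomputable def absO (o : K → ℤ) (hmul : ∀ x y, x ≠ 0 → y ≠ 0 → o (x * y) = o x + o y)
    (hadd : ∀ x y (m : ℤ), x ≠ 0 → y ≠ 0 → x + y ≠ 0 → m ≤ o x → m ≤ o y → m ≤ o (x + y)) :
    AbsoluteValue K ℝ := by
  classical
  exact
  { toFun := fun x => if x = 0 then 0 else Real.exp (-(o x : ℝ))
    map_mul' := by
      intro x y
      by_cases hx : x = 0
      · simp [hx]
      by_cases hy : y = 0
      · simp [hy]
      simp only [mul_eq_zero, hx, hy, or_self, if_false]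
      rw [hmul x y hx hy, ← Real.exp_add]
      congr 1
      push_cast
      ring
    nonneg' := by
      intro x
      show 0 ≤ (if x = 0 then (0:ℝ) else Real.exp (-(o x : ℝ)))
      split_ifs
      · exact le_refl 0
      · exact (Real.exp_pos _).le
    eq_zero' := by
      intro x
      show (if x = 0 then (0:ℝ) else Real.exp (-(o x : ℝ))) = 0 ↔ x = 0
      split_ifs with h
      · simp [h]
      · simp [h, (Real.exp_pos _).ne']
    add_le' := by
      intro x y
      show (if x + y = 0 then (0:ℝ) else Real.exp (-(o (x + y) : ℝ))) ≤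
        (if x = 0 then (0:ℝ) else Real.exp (-(o x : ℝ))) +
        (if y = 0 then (0:ℝ) else Real.exp (-(o y : ℝ)))
      by_cases hx : x = 0
      · simp [hx]
      by_cases hy : y = 0
      · simp [hy]
      by_cases hxy : x + y = 0
      · simp only [hxy, if_true, hx, hy, if_false]
        positivity
      simp only [hx, hy, hxy, if_false]
      have h := hadd x y (min (o x) (o y)) hx hy hxy (min_le_left _ _) (min_le_right _ _)
      rcases min_choice (o x) (o y) with h' | h'
      · rw [h'] at h
        have : Real.exp (-(o (x + y) : ℝ)) ≤ Real.exp (-(o x : ℝ)) := by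
          apply Real.exp_le_exp.mpr
          have : (o x : ℝ) ≤ o (x + y) := by exact_mod_cast h
          linarith
        have h2 := Real.exp_pos (-(o y : ℝ))
        linarith
      · rw [h'] at h
        have : Real.exp (-(o (x + y) : ℝ)) ≤ Real.exp (-(o y : ℝ)) := by
          apply Real.exp_le_exp.mpr
          have : (o y : ℝ) ≤ o (x + y) := by exact_mod_cast h
          linarith
        have h2 := Real.exp_pos (-(o x : ℝ))
        linarith }

theorem absO_apply (o : K → ℤ) (hmul : ∀ x y, x ≠ 0 → y ≠ 0 → o (x * y) = o x + o y)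
    (hadd : ∀ x y (m : ℤ), x ≠ 0 → y ≠ 0 → x + y ≠ 0 → m ≤ o x → m ≤ o y → m ≤ o (x + y))
    (x : K) (hx : x ≠ 0) : absO o hmul hadd x = Real.exp (-(o x : ℝ)) := by
  classical
  show (if x = 0 then 0 else Real.exp (-(o x : ℝ))) = _
  rw [if_neg hx]

theorem absO_na (o : K → ℤ) (hmul : ∀ x y, x ≠ 0 → y ≠ 0 → o (x * y) = o x + o y)
    (hadd : ∀ x y (m : ℤ), x ≠ 0 → y ≠ 0 → x + y ≠ 0 → m ≤ o x → m ≤ o y → m ≤ o (x + y)) :
    IsNonarchimedean (absO o hmul hadd) := by
  intro x y
  by_cases hx : x = 0
  · subst hx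
    rw [zero_add]
    exact le_max_right _ _
  by_cases hy : y = 0
  · subst hy
    rw [add_zero]
    exact le_max_left _ _
  by_cases hxy : x + y = 0
  · rw [hxy, map_zero]
    exact ((absO o hmul hadd).nonneg x).trans (le_max_left _ _)
  have h := hadd x y (min (o x) (o y)) hx hy hxy (min_le_left _ _) (min_le_right _ _)
  rw [absO_apply o hmul hadd x hx, absO_apply o hmul hadd y hy, absO_apply o hmul hadd _ hxy]
  rcases min_choice (o x) (o y) with h' | h'
  · rw [h'] at h
    refine le_trans ?_ (le_max_left _ _)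
    apply Real.exp_le_exp.mpr
    have : (o x : ℝ) ≤ o (x + y) := by exact_mod_cast h
    linarith
  · rw [h'] at h
    refine le_trans ?_ (le_max_right _ _)
    apply Real.exp_le_exp.mpr
    have : (o y : ℝ) ≤ o (x + y) := by exact_mod_cast h
    linarith

end mk

theorem exists_ext (E K Ω : Type u) [Field E] [Field K] [Algebra E K] [Field Ω] [Algebra K Ω]
    [Algebra.IsAlgebraic K Ω] (Q : PlaceData.{w} E K) (v : Q.Pl) :
    ∃ w : AbsoluteValue Ω ℝ, IsNonarchimedean w ∧
      ∀ x : K, x ≠ 0 → w (algebraMap K Ω x) = Real.exp (-(Q.ord v x : ℝ)) := by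
  obtain ⟨W, hW⟩ := Pool.Agent.TH450.FG.exists_ext_gen
    (absO (Q.ord v) (Q.ord_mul v) (Q.ord_add v)) (absO_na _ _ _)
  have hWna := Pool.Agent.TH450.FG.ext_na (absO_na _ _ _) hW
  let φ : Ω →ₐ[K] AlgebraicClosure K := IsAlgClosed.lift
  refine ⟨W.comp (f := φ.toRingHom) φ.toRingHom.injective, ?_, ?_⟩
  · intro a b
    show W (φ (a + b)) ≤ max (W (φ a)) (W (φ b))
    rw [map_add]
    exact hWna _ _
  · intro x hx
    show W (φ (algebraMap K Ω x)) = _
    rw [AlgHom.commutes, hW, absO_apply _ _ _ x hx]

theorem exists_ratAlg (E L : Type u) [Field E] [Field L] [Algebra E L] (s : L)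
    (hs : Transcendental E s)
    (hfin : FiniteDimensional (IntermediateField.adjoin E {s}) L) :
    ∃ _ : Algebra (RatFunc E) L, IsScalarTower E (RatFunc E) L ∧ FiniteDimensional (RatFunc E) L := by
  let σ : RatFunc E ≃ₐ[E] IntermediateField.adjoin E {s} := RatFunc.algEquivOfTranscendental s hs
  let φ : RatFunc E →+* L := (algebraMap (IntermediateField.adjoin E {s}) L).comp
    (σ : RatFunc E →+* IntermediateField.adjoin E {s})
  letI : Algebra (RatFunc E) L := φ.toAlgebra
  have hφ' : ∀ y, algebraMap (RatFunc E) L y = φ y := fun _ => rfl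
  have htow : IsScalarTower E (RatFunc E) L := by
    apply IsScalarTower.of_algebraMap_eq
    intro c
    rw [hφ']
    show _ = algebraMap (IntermediateField.adjoin E {s}) L (σ (algebraMap E (RatFunc E) c))
    rw [AlgEquiv.commutes]
    rfl
  have hcomp : (algebraMap (RatFunc E) L).comp
      (σ.symm.toRingEquiv : IntermediateField.adjoin E {s} →+* RatFunc E) =
      ((RingEquiv.refl L : L ≃+* L) : L →+* L).comp
        (algebraMap (IntermediateField.adjoin E {s}) L) := by
    apply RingHom.ext
    intro y
    obtain ⟨z, rfl⟩ := σ.surjective y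
    have h1 : σ.symm (σ z) = z := AlgEquiv.symm_apply_apply σ z
    calc algebraMap (RatFunc E) L (σ.symm (σ z)) = φ z := by rw [h1]; rfl
      _ = _ := rfl
  have hrank : Module.finrank (IntermediateField.adjoin E {s}) L = Module.finrank (RatFunc E) L :=
    Algebra.finrank_eq_of_equiv_equiv σ.symm.toRingEquiv (RingEquiv.refl L) hcomp
  have hfin' : FiniteDimensional (RatFunc E) L := by
    apply FiniteDimensional.of_finrank_pos
    rw [← hrank]
    exact Module.finrank_pos
  exact ⟨inferInstance, htow, hfin'⟩

theorem exists_pd (E F K : Type u) [Field E] [CharZero E] [IsAlgClosed E] [Field F] [Algebra E F]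
    [Field K] [Algebra E K] [Algebra F K] [IsScalarTower E F K] [FiniteDimensional F K] (x : F)
    (hx : Transcendental E x) (hfin : FiniteDimensional (IntermediateField.adjoin E {x}) F) :
    Nonempty (PlaceData.{u} E K) := by
  obtain ⟨i1, i2, i3⟩ := exists_ratAlg E F x hx hfin
  letI : Algebra (RatFunc E) K := ((algebraMap F K).comp (algebraMap (RatFunc E) F)).toAlgebra
  have hal : ∀ y, algebraMap (RatFunc E) K y = algebraMap F K (algebraMap (RatFunc E) F y) :=
    fun _ => rfl
  have h1 : IsScalarTower (RatFunc E) F K := IsScalarTower.of_algebraMap_eq hal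
  have h2 : IsScalarTower E (RatFunc E) K := by
    apply IsScalarTower.of_algebraMap_eq
    intro c
    rw [hal, ← IsScalarTower.algebraMap_apply E (RatFunc E) F, ← IsScalarTower.algebraMap_apply E F K]
  have h3 : FiniteDimensional (RatFunc E) K := FiniteDimensional.trans (RatFunc E) F K
  apply exists_placeData E K
  intro y hy
  have h4 := IsIntegral.mem_range_algebraMap_of_minpoly_splits (R := E) (K := E) (L := K)
    hy.isIntegral (IsAlgClosed.splits _)
  obtain ⟨c, hc⟩ := h4
  exact ⟨c, hc⟩

theorem hc_map {K L : Type*} [Field K] [Field L] (φ : K →+* L) (n : ℕ) (A f g : K[X]) :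
    (hc n A f g).map φ = hc n (A.map φ) (f.map φ) (g.map φ) := by
  unfold hc hev
  rw [Polynomial.map_sum]
  refine Finset.sum_congr rfl fun i _ => ?_
  simp only [Polynomial.map_mul, Polynomial.map_pow, coeff_map, map_C]

theorem cc_map (E K L : Type*) [Field E] [Field K] [Field L] [Algebra E K] [Algebra E L] [Algebra K L]
    [IsScalarTower E K L] {d : ℕ} {p q : K[X]} (h : ConjConst E p q d) :
    ConjConst E (p.map (algebraMap K L)) (q.map (algebraMap K L)) d := by
  obtain ⟨a, b, c, e, hdet, u, w, hne, hu, hw, hid⟩ := h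
  refine ⟨algebraMap K L a, algebraMap K L b, algebraMap K L c, algebraMap K L e, ?_, u, w, hne, hu,
    hw, ?_⟩
  · rw [← map_mul, ← map_mul, ← map_sub]
    exact (_root_.map_ne_zero _).2 hdet
  · have h1 := congrArg (Polynomial.map (algebraMap K L)) hid
    simp only [Polynomial.map_mul, Polynomial.map_add, hc_map, map_C, map_X, Polynomial.map_map,
      ← IsScalarTower.algebraMap_eq E K L] at h1
    exact h1

end Pool.Agent.Q177.OP.Pcf

namespace Pool.Agent.Q177.OP

open Pool.Agent.W277.UB Pool.Agent.W277.UH Finset Polynomial Pool.Agent.Q103.OP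
open Pool.Agent.Y706.CH (bK)
open Pool.Agent.Q177.OP.Pcf

universe u

theorem t_PCF (hBAK : S_BAK.{u, u, u}) (hSUN : S_SUN.{u, u, u}) (hGP : S_GP.{u}) (hPRE : S_PRE.{u}) :
    S_PCF.{u} := by
  classical
  intro E F _ _ _ _ _ x hx hfin d hd p q hR hcc hmul c hc hJ
  by_contra hcon
  push Not at hcon
  have hcF : CharZero F := charZero_of_injective_algebraMap (algebraMap E F).injective
  have hcΩ : CharZero (AlgebraicClosure F) :=
    charZero_of_injective_algebraMap (algebraMap F (AlgebraicClosure F)).injective
  have hd1 : 1 ≤ d := by omega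
  have hR' := Rat_map (algebraMap F (AlgebraicClosure F)) hR
  obtain ⟨l, b', hb0', hbb', hbl'⟩ := hPRE (AlgebraicClosure F) d hd _ _ hR'
    (vm (algebraMap F (AlgebraicClosure F)) c) (vm_ne _ hc) (by
    intro n hn
    rw [iter_vm, wd_vm]
    apply (_root_.map_ne_zero _).2
    intro h0
    apply hcon 0 n (by omega)
    show wd c _ = 0
    rw [wd_comm, h0, neg_zero])
  obtain ⟨A, hA⟩ : ∃ A : Finset (AlgebraicClosure F), A = univ.image (fun i => (b' i).1) ∪
    univ.image (fun i => (b' i).2) ∪ ((Wr p q).aroots (AlgebraicClosure F)).toFinset := ⟨_, rfl⟩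
  obtain ⟨M, hM⟩ : ∃ M : IntermediateField F (AlgebraicClosure F),
    M = IntermediateField.adjoin F (A : Set (AlgebraicClosure F)) := ⟨_, rfl⟩
  have hAM : ∀ z ∈ A, z ∈ M := by
    intro z hz
    rw [hM]
    exact IntermediateField.subset_adjoin F _ hz
  have hMf : FiniteDimensional F M := by
    rw [hM]
    exact IntermediateField.finiteDimensional_adjoin fun z _ => Algebra.IsIntegral.isIntegral z
  have hcM : CharZero M := charZero_of_injective_algebraMap (algebraMap F M).injective
  have hpm : ∀ B : F[X], (B.map (algebraMap F M)).map (algebraMap M (AlgebraicClosure F)) =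
      B.map (algebraMap F (AlgebraicClosure F)) := by
    intro B
    rw [Polynomial.map_map, ← IsScalarTower.algebraMap_eq]
  obtain ⟨Q⟩ := exists_pd E F M x hx hfin
  have hlift : ∀ i, ∃ bi : M × M, vm (algebraMap M (AlgebraicClosure F)) bi = b' i := by
    intro i
    have h1 : (b' i).1 ∈ M := by
      apply hAM
      rw [hA]
      have := Finset.mem_image_of_mem (fun i => (b' i).1) (mem_univ i)
      simp only [Finset.mem_union]
      tauto
    have h2 : (b' i).2 ∈ M := by
      apply hAM
      rw [hA]
      have := Finset.mem_image_of_mem (fun i => (b' i).2) (mem_univ i)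
      simp only [Finset.mem_union]
      tauto
    exact ⟨(⟨_, h1⟩, ⟨_, h2⟩), rfl⟩
  choose b hb using hlift
  have hsp : (Wr (p.map (algebraMap F M)) (q.map (algebraMap F M))).Splits := by
    rw [Wr_map]
    refine IntermediateField.splits_of_splits (IsAlgClosed.splits _) fun z hz => ?_
    apply hAM
    rw [hA]
    have : z ∈ ((Wr p q).aroots (AlgebraicClosure F)).toFinset := by
      rw [Multiset.mem_toFinset]
      rw [mem_rootSet'] at hz
      exact mem_aroots'.2 hz
    simp only [Finset.mem_union]
    tauto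
  have hTow : IsScalarTower E M (AlgebraicClosure F) := by
    apply IsScalarTower.of_algebraMap_eq
    intro c
    rw [IsScalarTower.algebraMap_apply E F M, ← IsScalarTower.algebraMap_apply F M (AlgebraicClosure F),
      ← IsScalarTower.algebraMap_apply E F (AlgebraicClosure F)]
  have hvv : ∀ Z : F × F, vm (algebraMap M (AlgebraicClosure F)) (vm (algebraMap F M) Z) =
      vm (algebraMap F (AlgebraicClosure F)) Z := fun Z => rfl
  refine core hBAK hSUN hGP E M (AlgebraicClosure F) (algebraMap M (AlgebraicClosure F)) Q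
    (fun v => exists_ext E M (AlgebraicClosure F) Q v) d hd (p.map (algebraMap F M))
    (q.map (algebraMap F M)) (Rat_map _ hR) hsp ?_ ?_ (vm (algebraMap F M) c) (vm_ne _ hc) ?_ ?_ l b
    ?_ ?_ ?_
  · intro h
    apply hcc
    have h1 := cc_map E M (AlgebraicClosure F) h
    rw [hpm, hpm] at h1
    exact h1
  · intro m hm Z μ hZ hμ h
    rw [hpm, hpm] at h ⊢
    obtain ⟨e, he⟩ := hmul m hm Z μ hZ hμ h
    refine ⟨e, ?_⟩
    rw [← IsScalarTower.algebraMap_apply]
    exact he
  · rw [Jv_vm, hJ, map_zero]
  · intro i j hij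
    rw [iter_vm, iter_vm, wd_vm]
    exact (_root_.map_ne_zero _).2 (hcon i j hij)
  · intro i h
    apply hb0' i
    rw [← hb, h]
    exact Prod.ext (map_zero _) (map_zero _)
  · intro i j hij h
    apply hbb' i j hij
    rw [← hb, ← hb, wd_vm, h, map_zero]
  · intro i
    have h1 := hbl' i
    rw [← hb, ← hvv, ← hpm, ← hpm, iter_vm, wd_vm] at h1
    exact (_root_.map_eq_zero _).1 h1

end Pool.Agent.Q177.OP
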