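import Pool.Agent.Q289.OP.Stm

/-!
# The averages over two neighbouring cells act on sums

For the project OP of helper289: `cE (ww q) a (∑ g (d i)) = ∑ t1 q a g (c i)`.
-/

set_option autoImplicit false

namespace Q177.OP.CLO

open MeasureTheory Set Filter Topology Q289.OP

variable {ι : Type} [Fintype ι] [DecidableEq ι] [PartialOrder ι] {N : ℕ}

open Classical in
/-- the labels in the cells `a`, `a + 1` -/
noncomputable def SS (a : Fin N) (c : ι → Fin (N + 1)) : Finset ι :=
  Finset.univ.filter fun i => c i = a.castSucc ∨ c i = a.succ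

open Classical in
/-- the number of the labels of `SS a c` in the cell `a` -/
noncomputable def KK (a : Fin N) (c d : ι → Fin (N + 1)) : ℕ :=
  ((SS a c).filter fun i => d i = a.castSucc).card

theorem KK_le (a : Fin N) (c d : ι → Fin (N + 1)) : KK a c d ≤ (SS a c).card :=
  Finset.card_filter_le _ _

open Classical in
theorem prod_eq (a : Fin N) (c d : ι → Fin (N + 1)) (α β : ℝ) :
    (∏ i, if c i = a.castSucc ∨ c i = a.succ then (if d i = a.castSucc then α else β) else 1) =
      α ^ KK a c d * β ^ ((SS a c).card - KK a c d) := by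
  rw [← Finset.prod_filter]
  change (∏ i ∈ SS a c, if d i = a.castSucc then α else β) = _
  rw [Finset.prod_ite, Finset.prod_const, Finset.prod_const]
  congr 2
  have := Finset.card_filter_add_card_filter_not (s := SS a c) (fun i => d i = a.castSucc)
  unfold KK
  omega

/-- class of `c` -/
theorem blk_out {a : Fin N} {c d : ι → Fin (N + 1)} (h : blk a c d) {i : ι}
    (hi : ¬ (c i = a.castSucc ∨ c i = a.succ)) : d i = c i := by
  rcases h i with e | e
  · exact e
  · exact absurd e.1 hi

theorem blk_in {a : Fin N} {c d : ι → Fin (N + 1)} (h : blk a c d) {i : ι}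
    (hi : c i = a.castSucc ∨ c i = a.succ) : d i = a.castSucc ∨ d i = a.succ := by
  rcases h i with e | e
  · rw [e]; exact hi
  · exact e.2

open Classical in
theorem ww_eq (q : Fin (N + 1) → ℝ) {a : Fin N} {c d : ι → Fin (N + 1)} (h : blk a c d) :
    ww q d = (∏ i ∈ (SS a c)ᶜ, q (c i)) *
      ((∏ i, if c i = a.castSucc ∨ c i = a.succ then
        (if d i = a.castSucc then q a.castSucc else q a.succ) else 1) *
        vv fun i => (d i : ℕ)) := by
  unfold ww
  rw [← mul_assoc]
  congr 1
  rw [← Finset.prod_filter]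
  change _ = _ * (∏ i ∈ SS a c, _)
  rw [mul_comm, ← Finset.prod_mul_prod_compl (SS a c) (fun i => q (d i))]
  congr 1
  · refine Finset.prod_congr rfl fun i hi => ?_
    have hi' : c i = a.castSucc ∨ c i = a.succ := (Finset.mem_filter.1 hi).2
    rcases blk_in h hi' with e | e
    · rw [if_pos e, e]
    · have h3 : ¬ (d i = a.castSucc) := by
        rw [e, Fin.ext_iff, Fin.val_castSucc, Fin.val_succ]; omega
      rw [if_neg h3, e]
  · refine Finset.prod_congr rfl fun i hi => ?_
    have hi' : ¬ (c i = a.castSucc ∨ c i = a.succ) := by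
      intro e
      exact (Finset.mem_compl.1 hi) (Finset.mem_filter.2 ⟨Finset.mem_univ _, e⟩)
    rw [blk_out h hi']

open Classical in
theorem sum_eq (g : Fin (N + 1) → ℝ) {a : Fin N} {c d : ι → Fin (N + 1)} (h : blk a c d) :
    ∑ i, g (d i) = (∑ i ∈ (SS a c)ᶜ, g (c i)) + (SS a c).card * g a.succ +
      KK a c d * (g a.castSucc - g a.succ) := by
  rw [← Finset.sum_add_sum_compl (SS a c) (fun i => g (d i))]
  have h1 : ∑ i ∈ (SS a c)ᶜ, g (d i) = ∑ i ∈ (SS a c)ᶜ, g (c i) := by
    refine Finset.sum_congr rfl fun i hi => ?_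
    have hi' : ¬ (c i = a.castSucc ∨ c i = a.succ) := by
      intro e
      exact (Finset.mem_compl.1 hi) (Finset.mem_filter.2 ⟨Finset.mem_univ _, e⟩)
    rw [blk_out h hi']
  have h2 : ∑ i ∈ SS a c, g (d i) =
      ∑ i ∈ SS a c, (g a.succ + if d i = a.castSucc then g a.castSucc - g a.succ else 0) := by
    refine Finset.sum_congr rfl fun i hi => ?_
    have hi' : c i = a.castSucc ∨ c i = a.succ := (Finset.mem_filter.1 hi).2
    rcases blk_in h hi' with e | e
    · rw [if_pos e, e]; ring
    · have h3 : ¬ (d i = a.castSucc) := by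
        rw [e, Fin.ext_iff, Fin.val_castSucc, Fin.val_succ]; omega
      rw [if_neg h3, e]; ring
  rw [h1, h2, Finset.sum_add_distrib, Finset.sum_const, ← Finset.sum_filter, Finset.sum_const]
  simp only [nsmul_eq_mul]
  unfold KK
  ring

/-- differentiation of the identity -/
theorem deriv_id {J : Type} (s : Finset J) (k : J → ℕ) (v : J → ℝ) (m : ℕ) (κ β : ℝ)
    (hβ : 0 < β)
    (h : ∀ α : ℝ, 0 < α → ∑ j ∈ s, α ^ k j * v j = κ * (α + β) ^ m) {α : ℝ} (hα : 0 < α) :
    (∑ j ∈ s, (k j : ℝ) * (α ^ k j * v j)) * (α + β) = m * α * (κ * (α + β) ^ m) := by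
  have h1 : HasDerivAt (fun x : ℝ => ∑ j ∈ s, x ^ k j * v j)
      (∑ j ∈ s, (k j : ℝ) * α ^ (k j - 1) * v j) α := by
    have := HasDerivAt.fun_sum (u := s) (A := fun j (x : ℝ) => x ^ k j * v j)
      (A' := fun j => (k j : ℝ) * α ^ (k j - 1) * v j) (x := α)
      (fun j _ => (hasDerivAt_pow (k j) α).mul_const (v j))
    exact this
  have h2 : HasDerivAt (fun x : ℝ => κ * (x + β) ^ m) (κ * (m * (α + β) ^ (m - 1))) α := by
    have h3 : HasDerivAt (fun x : ℝ => (x + β) ^ m) ((m : ℝ) * (α + β) ^ (m - 1) * 1) α :=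
      ((hasDerivAt_id α).add_const β).pow m
    rw [mul_one] at h3
    exact h3.const_mul κ
  have h4 : (fun x : ℝ => ∑ j ∈ s, x ^ k j * v j) =ᶠ[𝓝 α] fun x : ℝ => κ * (x + β) ^ m := by
    filter_upwards [lt_mem_nhds hα] with x hx
    exact h x hx
  have h5 := h1.unique (h2.congr_of_eventuallyEq h4)
  have h6 : ∑ j ∈ s, (k j : ℝ) * (α ^ k j * v j) =
      α * ∑ j ∈ s, (k j : ℝ) * α ^ (k j - 1) * v j := by
    rw [Finset.mul_sum]
    refine Finset.sum_congr rfl fun j _ => ?_
    rcases Nat.eq_zero_or_pos (k j) with e | e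
    · rw [e]; simp
    · have : α ^ k j = α * α ^ (k j - 1) := by
        rw [← pow_succ', Nat.sub_add_cancel e]
      rw [this]; ring
  rw [h6, h5]
  rcases Nat.eq_zero_or_pos m with e | e
  · rw [e]; simp
  · have : (α + β) ^ m = (α + β) ^ (m - 1) * (α + β) := by
      rw [← pow_succ, Nat.sub_add_cancel e]
    rw [this]; ring

theorem clo (h : S_SCA) (h2 : S_VPOS) : S_CLO := by
  classical
  intro ι _ _ _ N q hq a g c hc
  obtain ⟨κ, hκ⟩ := h ι N a c
  set α := q a.castSucc with hα
  set β := q a.succ with hβ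
  have hα0 : 0 < α := hq _
  have hβ0 : 0 < β := hq _
  set m := (SS a c).card with hm
  set B := Finset.univ.filter fun d : ι → Fin (N + 1) => blk a c d with hB
  -- the polynomial identity
  have k1 : ∀ x : ℝ, 0 < x → ∑ d ∈ B, x ^ KK a c d *
      (β ^ (m - KK a c d) * vv fun i => (d i : ℕ)) = κ * (x + β) ^ m := by
    intro x hx
    have e := hκ x β hx hβ0
    rw [← Finset.sum_filter] at e
    have e2 : (Finset.univ.filter fun i => c i = a.castSucc ∨ c i = a.succ).card = m := by
      rw [hm]; unfold SS; congr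
    rw [e2] at e
    rw [← e]
    refine Finset.sum_congr ?_ fun d _ => ?_
    · rw [hB]
    · rw [prod_eq a c d x β, ← hm, mul_assoc]
  have k2 := deriv_id B (KK a c) (fun d => β ^ (m - KK a c d) * vv fun i => (d i : ℕ)) m κ β hβ0
    k1 hα0
  have k3 := k1 α hα0
  -- positivity of the sum
  have k4 : 0 < κ * (α + β) ^ m := by
    rw [← k3]
    apply Finset.sum_pos'
    · intro d _
      have := (h2 ι (fun i => (d i : ℕ))).1
      positivity
    · refine ⟨c, ?_, ?_⟩
      · rw [hB, Finset.mem_filter]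
        exact ⟨Finset.mem_univ _, fun i => Or.inl rfl⟩
      · have h3 : Monotone fun i => (c i : ℕ) := fun i j hij => hc hij
        have := ((h2 ι (fun i => (c i : ℕ))).2.2).2 h3
        positivity
  -- weights
  set P := ∏ i ∈ (SS a c)ᶜ, q (c i) with hP
  have hP0 : 0 < P := Finset.prod_pos fun i _ => hq _
  have k5 : ∀ d ∈ B, ww q d = P * (α ^ KK a c d *
      (β ^ (m - KK a c d) * vv fun i => (d i : ℕ))) := by
    intro d hd
    have hd' : blk a c d := (Finset.mem_filter.1 hd).2
    rw [ww_eq q hd', prod_eq a c d, mul_assoc (_ ^ _)]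
  have k6 : (∑ d, if blk a c d then ww q d else 0) = P * (κ * (α + β) ^ m) := by
    rw [← Finset.sum_filter, ← k3, Finset.mul_sum]
    exact Finset.sum_congr rfl k5
  set C0 := (∑ i ∈ (SS a c)ᶜ, g (c i)) + m * g a.succ with hC0
  set G := g a.castSucc - g a.succ with hG
  have k7 : (∑ d, if blk a c d then ww q d * (∑ i, g (d i)) else 0) =
      P * (C0 * (κ * (α + β) ^ m) + G * ∑ d ∈ B, (KK a c d : ℝ) * (α ^ KK a c d *
        (β ^ (m - KK a c d) * vv fun i => (d i : ℕ)))) := by
    rw [← Finset.sum_filter, ← k3, Finset.mul_sum, Finset.mul_sum, ← Finset.sum_add_distrib,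
      Finset.mul_sum]
    refine Finset.sum_congr rfl fun d hd => ?_
    have hd' : blk a c d := (Finset.mem_filter.1 hd).2
    rw [k5 d hd, sum_eq g hd', ← hm, ← hG, hC0]
    ring
  have k8 : cE (ww q) a (fun d => ∑ i, g (d i)) c = C0 + G * (m * α / (α + β)) := by
    unfold cE
    rw [k6, k7]
    have hab : 0 < α + β := by positivity
    rw [div_eq_iff (by positivity)]
    have : (∑ d ∈ B, (KK a c d : ℝ) * (α ^ KK a c d *
        (β ^ (m - KK a c d) * vv fun i => (d i : ℕ)))) = m * α / (α + β) * (κ * (α + β) ^ m) := by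
      rw [div_mul_eq_mul_div, eq_div_iff hab.ne']
      exact k2
    rw [this]
    ring
  rw [k8]
  -- right-hand side
  rw [← Finset.sum_add_sum_compl (SS a c) (fun i => t1 q a g (c i))]
  have r1 : ∑ i ∈ (SS a c)ᶜ, t1 q a g (c i) = ∑ i ∈ (SS a c)ᶜ, g (c i) := by
    refine Finset.sum_congr rfl fun i hi => ?_
    have hi' : ¬ (c i = a.castSucc ∨ c i = a.succ) := by
      intro e
      exact (Finset.mem_compl.1 hi) (Finset.mem_filter.2 ⟨Finset.mem_univ _, e⟩)
    unfold t1
    rw [if_neg hi']
  have r2 : ∑ i ∈ SS a c, t1 q a g (c i) =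
      m * ((α * g a.castSucc + β * g a.succ) / (α + β)) := by
    rw [hm, ← nsmul_eq_mul, ← Finset.sum_const]
    refine Finset.sum_congr rfl fun i hi => ?_
    have hi' : c i = a.castSucc ∨ c i = a.succ := (Finset.mem_filter.1 hi).2
    unfold t1
    rw [if_pos hi']
  rw [r1, r2, hC0, hG]
  have hab : α + β ≠ 0 := by positivity
  field_simp
  ring

end Q177.OP.CLO
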