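import Pool.Agent.Q103.OP.Defs

/-!
# Project OP, job PCF: forms
-/

set_option autoImplicit false
set_option linter.unusedSectionVars false
set_option linter.unusedVariables false
set_option linter.style.longLine false

namespace Pool.Agent.Q177.OP.Pcf

open Pool.Agent.W277.UB Pool.Agent.W277.UH Finset Polynomial Pool.Agent.Q103.OP
open Pool.Agent.Y706.CH (bK)

section field

variable {K : Type*} [Field K] {d : ℕ} {p q : K[X]}

theorem rat_p (h : Rat d p q) : p.natDegree ≤ d := (le_max_left _ _).trans h.2.le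
theorem rat_q (h : Rat d p q) : q.natDegree ≤ d := (le_max_right _ _).trans h.2.le

theorem bK_smul (t : K) (Z : K × K) : bK d p q (t • Z) = t ^ d • bK d p q Z := by
  unfold bK
  rw [hev_smul, hev_smul]
  rfl

theorem iter_smul (n : ℕ) (t : K) (Z : K × K) :
    (bK d p q)^[n] (t • Z) = t ^ (d ^ n) • (bK d p q)^[n] Z := by
  induction n with
  | zero => simp
  | succ n ih =>
    rw [Function.iterate_succ_apply', ih, bK_smul, Function.iterate_succ_apply', ← pow_mul,
      pow_succ]

theorem bK_ne (hd : 1 ≤ d) (h : Rat d p q) (Z : K × K) (hZ : Z ≠ 0) : bK d p q Z ≠ 0 := by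
  intro h0
  have h1 : hev d p Z = 0 := congrArg Prod.fst h0
  have h2 : hev d q Z = 0 := congrArg Prod.snd h0
  by_cases hz : Z.2 = 0
  · have hz1 : Z.1 ≠ 0 := fun h => hZ (Prod.ext h hz)
    have e : Z = (Z.1, 0) := Prod.ext rfl hz
    rw [e, hev_zero] at h1 h2
    have h3 := (mul_eq_zero.1 h1).resolve_right (pow_ne_zero d hz1)
    have h4 := (mul_eq_zero.1 h2).resolve_right (pow_ne_zero d hz1)
    rcases max_choice p.natDegree q.natDegree with hm | hm
    · have h5 : p.natDegree = d := by rw [← hm]; exact h.2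
      have h6 : p = 0 := by
        rw [← leadingCoeff_eq_zero, leadingCoeff, h5]
        exact h3
      rw [h6, natDegree_zero] at h5
      omega
    · have h5 : q.natDegree = d := by rw [← hm]; exact h.2
      have h6 : q = 0 := by
        rw [← leadingCoeff_eq_zero, leadingCoeff, h5]
        exact h4
      rw [h6, natDegree_zero] at h5
      omega
  · rw [hev_eval d p (rat_p h) Z hz] at h1
    rw [hev_eval d q (rat_q h) Z hz] at h2
    have h3 := (mul_eq_zero.1 h1).resolve_left (pow_ne_zero d hz)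
    have h4 := (mul_eq_zero.1 h2).resolve_left (pow_ne_zero d hz)
    obtain ⟨u, v, huv⟩ := h.1
    have h5 := congrArg (eval (Z.1 / Z.2)) huv
    rw [eval_add, eval_mul, eval_mul, h3, h4, mul_zero, mul_zero, add_zero, eval_one] at h5
    exact zero_ne_one h5

theorem iter_ne (hd : 1 ≤ d) (h : Rat d p q) (n : ℕ) (Z : K × K) (hZ : Z ≠ 0) :
    (bK d p q)^[n] Z ≠ 0 := by
  induction n with
  | zero => exact hZ
  | succ n ih =>
    rw [Function.iterate_succ_apply']
    exact bK_ne hd h _ ih

theorem par {X Y : K × K} (hX : X ≠ 0) (hY : Y ≠ 0) (h : wd X Y = 0) : ∃ t : K, t ≠ 0 ∧ X = t • Y := by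
  obtain ⟨t, ht⟩ := (wd_zero_iff hY).1 h
  refine ⟨t, ?_, ht⟩
  rintro rfl
  rw [zero_smul] at ht
  exact hX ht

theorem wd_iter {X Y : K × K} (hX : X ≠ 0) (hY : Y ≠ 0) (h : wd X Y = 0) (n : ℕ) :
    wd ((bK d p q)^[n] X) ((bK d p q)^[n] Y) = 0 := by
  obtain ⟨t, _, rfl⟩ := par hX hY h
  rw [iter_smul, wd_smul_left, wd_self, mul_zero]

theorem wd_trans {X Y Z : K × K} (hX : X ≠ 0) (hY : Y ≠ 0) (h : wd X Y = 0) (h' : wd Y Z = 0) :
    wd X Z = 0 := by
  obtain ⟨t, _, rfl⟩ := par hX hY h
  rw [wd_smul_left, h', mul_zero]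

theorem Wr_deg (hd : 1 ≤ d) (hp : p.natDegree ≤ d) (hq : q.natDegree ≤ d) :
    (Wr p q).natDegree ≤ 2 * d - 2 := by
  unfold Wr
  obtain ⟨d, rfl⟩ : ∃ k, d = k + 1 := ⟨d - 1, by omega⟩
  have h1 : (derivative p).natDegree ≤ d := (natDegree_derivative_le _).trans (by omega)
  have h2 : (derivative q).natDegree ≤ d := (natDegree_derivative_le _).trans (by omega)
  have h3 : (derivative p * q - p * derivative q).natDegree ≤ 2 * d + 1 := by
    refine (natDegree_sub_le _ _).trans (max_le ?_ ?_)
    · exact (natDegree_mul_le_of_le h1 hq).trans (by omega)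
    · exact (natDegree_mul_le_of_le hp h2).trans (by omega)
  have h4 : (derivative p * q - p * derivative q).coeff (2 * d + 1) = 0 := by
    rw [coeff_sub]
    have e1 : (derivative p * q).coeff (2 * d + 1) =
        (derivative p).coeff d * q.coeff (d + 1) := by
      have : 2 * d + 1 = d + (d + 1) := by ring
      rw [this]
      exact coeff_mul_add_eq_of_natDegree_le h1 hq
    have e2 : (p * derivative q).coeff (2 * d + 1) =
        p.coeff (d + 1) * (derivative q).coeff d := by
      have : 2 * d + 1 = (d + 1) + d := by ring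
      rw [this]
      exact coeff_mul_add_eq_of_natDegree_le hp h2
    rw [e1, e2, coeff_derivative, coeff_derivative]
    ring
  have := natDegree_le_pred h3 h4
  omega

theorem Wr_ne [CharZero K] (hd : 1 ≤ d) (h : Rat d p q) : Wr p q ≠ 0 := by
  intro h0
  have h1 : derivative p * q = p * derivative q := sub_eq_zero.1 h0
  have hder : ∀ f g : K[X], IsCoprime f g → derivative f * g = f * derivative g → f.natDegree = 0 := by
    intro f g hfg h2
    have h3 : f ∣ derivative f := by
      have h4 : f ∣ derivative f * g := ⟨derivative g, h2⟩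
      exact hfg.dvd_of_dvd_mul_right h4
    by_contra hne
    have h5 : derivative f = 0 := by
      by_contra h6
      have h7 := natDegree_le_of_dvd h3 h6
      have h8 := natDegree_derivative_lt hne
      omega
    exact hne (natDegree_eq_zero_of_derivative_eq_zero h5)
  have e1 := hder p q h.1 h1
  have e2 := hder q p h.1.symm (by rw [mul_comm, ← h1, mul_comm])
  have e3 := h.2
  rw [e1, e2] at e3
  simp at e3
  omega

end field

section map

variable {K L : Type*} [Field K] [Field L] (ι : K →+* L) {d : ℕ} {p q : K[X]}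

/-- the image of a vector -/
def vm (Z : K × K) : L × L := (ι Z.1, ι Z.2)

theorem hev_vm (A : K[X]) (Z : K × K) : hev d (A.map ι) (vm ι Z) = ι (hev d A Z) := by
  unfold hev vm
  rw [map_sum]
  refine Finset.sum_congr rfl fun i _ => ?_
  rw [map_mul, map_mul, map_pow, map_pow, coeff_map]

theorem bK_vm (Z : K × K) : bK d (p.map ι) (q.map ι) (vm ι Z) = vm ι (bK d p q Z) := by
  unfold bK
  rw [hev_vm, hev_vm]
  rfl

theorem iter_vm (n : ℕ) (Z : K × K) :
    (bK d (p.map ι) (q.map ι))^[n] (vm ι Z) = vm ι ((bK d p q)^[n] Z) := by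
  induction n with
  | zero => rfl
  | succ n ih => rw [Function.iterate_succ_apply', ih, bK_vm, Function.iterate_succ_apply']

theorem wd_vm (X Y : K × K) : wd (vm ι X) (vm ι Y) = ι (wd X Y) := by
  unfold wd vm
  rw [map_sub, map_mul, map_mul]

theorem vm_ne {Z : K × K} (hZ : Z ≠ 0) : vm ι Z ≠ 0 := by
  intro h
  apply hZ
  have h1 : ι Z.1 = 0 := congrArg Prod.fst h
  have h2 : ι Z.2 = 0 := congrArg Prod.snd h
  exact Prod.ext ((map_eq_zero ι).1 h1) ((map_eq_zero ι).1 h2)

theorem vm_smul (t : K) (Z : K × K) : vm ι (t • Z) = ι t • vm ι Z := by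
  unfold vm
  ext <;> simp

theorem Wr_map : Wr (p.map ι) (q.map ι) = (Wr p q).map ι := by
  unfold Wr
  rw [Polynomial.map_sub, Polynomial.map_mul, Polynomial.map_mul, derivative_map, derivative_map]

theorem Rat_map (h : Rat d p q) : Rat d (p.map ι) (q.map ι) := by
  refine ⟨h.1.map (mapRingHom ι), ?_⟩
  rw [natDegree_map, natDegree_map]
  exact h.2

theorem Jv_vm (Z : K × K) : Jv d (p.map ι) (q.map ι) (vm ι Z) = ι (Jv d p q Z) := by
  unfold Jv
  rw [Wr_map, hev_vm]

/-- the critical vectors, and infinity -/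
noncomputable def cs (p q : K[X]) : Finset (K × K) := by
  classical
  exact insert (1, 0) ((Wr p q).roots.toFinset.image fun r => (r, 1))

theorem cs_ne {y : K × K} (h : y ∈ cs p q) : y ≠ 0 := by
  classical
  unfold cs at h
  rw [Finset.mem_insert, Finset.mem_image] at h
  rcases h with rfl | ⟨r, _, rfl⟩
  · intro h
    exact one_ne_zero (congrArg Prod.fst h)
  · intro h
    exact one_ne_zero (congrArg Prod.snd h)

theorem crit_vec [CharZero K] (hd : 1 ≤ d) (h : Rat d p q) (hsp : (Wr p q).Splits) (Y : L × L)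
    (hY : Y ≠ 0) (hJ : Jv d (p.map ι) (q.map ι) Y = 0) : ∃ y ∈ cs p q, wd Y (vm ι y) = 0 := by
  classical
  by_cases hz : Y.2 = 0
  · refine ⟨(1, 0), Finset.mem_insert_self _ _, ?_⟩
    unfold wd vm
    simp [hz]
  · unfold Jv at hJ
    rw [Wr_map, hev_eval (2 * d - 2) _ (natDegree_map_le.trans (Wr_deg hd (rat_p h) (rat_q h))) Y hz] at hJ
    have h1 := (mul_eq_zero.1 hJ).resolve_left (pow_ne_zero _ hz)
    have h2 : Y.1 / Y.2 ∈ ((Wr p q).map ι).roots :=
      (mem_roots ((Polynomial.map_ne_zero_iff ι.injective).2 (Wr_ne hd h))).2 h1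
    rw [hsp.roots_map, Multiset.mem_map] at h2
    obtain ⟨r, hr, hr2⟩ := h2
    refine ⟨(r, 1), ?_, ?_⟩
    · unfold cs
      refine Finset.mem_insert_of_mem (Finset.mem_image.2 ⟨r, Multiset.mem_toFinset.2 hr, rfl⟩)
    · unfold wd vm
      simp only [map_one, mul_one]
      rw [hr2, mul_div_cancel₀ _ hz, sub_self]

/-- Bezout identity -/
theorem bez (hd : 1 ≤ d) (hco : IsCoprime p q) (hp : p.natDegree ≤ d) (hq : q.natDegree ≤ d) :
    ∃ (n : ℕ) (a b : K[X]), ∀ Z : L × L, hev n (a.map ι) Z * hev d (p.map ι) Z +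
      hev n (b.map ι) Z * hev d (q.map ι) Z = Z.2 ^ (n + d) := by
  obtain ⟨a, b, hab⟩ := hco
  refine ⟨max a.natDegree b.natDegree + 1, a, b, fun Z => ?_⟩
  set n := max a.natDegree b.natDegree + 1 with hn
  have hna : a.natDegree < n := by rw [hn]; exact Nat.lt_succ_of_le (le_max_left _ _)
  have hnb : b.natDegree < n := by rw [hn]; exact Nat.lt_succ_of_le (le_max_right _ _)
  by_cases hz : Z.2 = 0
  · have e : Z = (Z.1, 0) := Prod.ext rfl hz
    rw [e, hev_zero, hev_zero, hev_zero, hev_zero, coeff_map, coeff_map, coeff_map, coeff_map,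
      coeff_eq_zero_of_natDegree_lt hna, coeff_eq_zero_of_natDegree_lt hnb, map_zero]
    rw [zero_mul, zero_mul, zero_mul, zero_add]
    exact (zero_pow (by omega)).symm
  · rw [hev_eval n _ (natDegree_map_le.trans hna.le) Z hz, hev_eval n _ (natDegree_map_le.trans hnb.le) Z hz,
      hev_eval d _ (natDegree_map_le.trans hp) Z hz, hev_eval d _ (natDegree_map_le.trans hq) Z hz]
    have h1 := congrArg (fun f => (f.map ι).eval (Z.1 / Z.2)) hab
    simp only [Polynomial.map_add, Polynomial.map_mul, Polynomial.map_one, eval_add, eval_mul,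
      eval_one] at h1
    rw [pow_add]
    linear_combination (Z.2 ^ n * Z.2 ^ d) * h1

theorem hev_reflect (A : K[X]) (Z : K × K) : hev d (reflect d A) (Z.2, Z.1) = hev d A Z := by
  unfold hev
  rw [← Finset.sum_range_reflect]
  refine Finset.sum_congr rfl fun i hi => ?_
  rw [Finset.mem_range] at hi
  have e1 : d + 1 - 1 - i = d - i := by omega
  rw [e1, coeff_reflect, revAt_le (by omega), show d - (d - i) = i by omega]
  ring

theorem reflect_deg (A : K[X]) (hA : A.natDegree ≤ d) : (reflect d A).natDegree ≤ d := by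
  rw [natDegree_le_iff_coeff_eq_zero]
  intro N hN
  rw [coeff_reflect, revAt_eq_self_of_lt hN]
  exact coeff_eq_zero_of_natDegree_lt (lt_of_le_of_lt hA hN)

theorem reflect_cop (hd : 1 ≤ d) (h : Rat d p q) : IsCoprime (reflect d p) (reflect d q) := by
  refine (isCoprime_iff_aeval_ne_zero_of_isAlgClosed (k := K) (AlgebraicClosure K) _ _).mpr ?_
  intro y
  by_contra hcon
  push Not at hcon
  obtain ⟨h1, h2⟩ := hcon
  have h3 : ∀ A : K[X], A.natDegree ≤ d → aeval y (reflect d A) =
      hev d (A.map (algebraMap K (AlgebraicClosure K))) (1, y) := by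
    intro A hA
    have h4 := hev_reflect (d := d) (A.map (algebraMap K (AlgebraicClosure K))) (1, y)
    rw [← h4, reflect_map, hev_one d _ (natDegree_map_le.trans (reflect_deg A hA)), eval_map_algebraMap]
  rw [h3 p (rat_p h)] at h1
  rw [h3 q (rat_q h)] at h2
  exact bK_ne hd (Rat_map (algebraMap K (AlgebraicClosure K)) h) (1, y)
    (fun h => one_ne_zero (congrArg Prod.fst h)) (Prod.ext h1 h2)

theorem bez' (hd : 1 ≤ d) (h : Rat d p q) :
    ∃ (n : ℕ) (a b : K[X]), ∀ Z : L × L, hev n (a.map ι) (Z.2, Z.1) * hev d (p.map ι) Z +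
      hev n (b.map ι) (Z.2, Z.1) * hev d (q.map ι) Z = Z.1 ^ (n + d) := by
  obtain ⟨n, a, b, hab⟩ := bez ι hd (reflect_cop hd h) (reflect_deg p (rat_p h))
    (reflect_deg q (rat_q h))
  refine ⟨n, a, b, fun Z => ?_⟩
  have h1 := hab (Z.2, Z.1)
  rw [← reflect_map, ← reflect_map, hev_reflect, hev_reflect] at h1
  exact h1

end map

end Pool.Agent.Q177.OP.Pcf
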