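import Pool.Agent.Q177.OP.PcfA

/-!
# Project OP, job PCF: absolute values
-/

set_option autoImplicit false
set_option linter.unusedSectionVars false
set_option linter.unusedVariables false
set_option linter.style.longLine false

namespace Pool.Agent.Q177.OP.Pcf

open Pool.Agent.W277.UB Pool.Agent.W277.UH Finset Polynomial Pool.Agent.Q103.OP
open Pool.Agent.Y706.CH (bK)

section abs

variable {Ω : Type*} [Field Ω] {w : AbsoluteValue Ω ℝ} {d : ℕ} {P Q : Polynomial Ω}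

/-- unit vectors -/
def Un (w : AbsoluteValue Ω ℝ) (Z : Ω × Ω) : Prop := max (w Z.1) (w Z.2) = 1

theorem Un.le1 {Z : Ω × Ω} (h : Un w Z) : w Z.1 ≤ 1 := (le_max_left _ _).trans h.le
theorem Un.le2 {Z : Ω × Ω} (h : Un w Z) : w Z.2 ≤ 1 := (le_max_right _ _).trans h.le
theorem Un.or {Z : Ω × Ω} (h : Un w Z) : w Z.1 = 1 ∨ w Z.2 = 1 := by
  rcases max_choice (w Z.1) (w Z.2) with h1 | h1
  · left
    rw [← h1]
    exact h
  · right
    rw [← h1]
    exact h
theorem Un.ne {Z : Ω × Ω} (h : Un w Z) : Z ≠ 0 := by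
  rintro rfl
  rcases h.or with h1 | h1
  · rw [Prod.fst_zero, map_zero] at h1
    exact zero_ne_one h1
  · rw [Prod.snd_zero, map_zero] at h1
    exact zero_ne_one h1
theorem Un.mk {Z : Ω × Ω} (h1 : w Z.1 ≤ 1) (h2 : w Z.2 ≤ 1) (h : ¬ (w Z.1 < 1 ∧ w Z.2 < 1)) : Un w Z := by
  refine le_antisymm (max_le h1 h2) ?_
  by_contra hcon
  rw [not_le, max_lt_iff] at hcon
  exact h hcon

theorem na_add (hw : IsNonarchimedean w) {a b : Ω} {r : ℝ} (ha : w a ≤ r) (hb : w b ≤ r) : w (a + b) ≤ r :=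
  (hw a b).trans (max_le ha hb)
theorem na_add_lt (hw : IsNonarchimedean w) {a b : Ω} {r : ℝ} (ha : w a < r) (hb : w b < r) :
    w (a + b) < r :=
  (hw a b).trans_lt (max_lt ha hb)
theorem w_neg (a : Ω) : w (-a) = w a := AbsoluteValue.map_neg w a
theorem na_sub (hw : IsNonarchimedean w) {a b : Ω} {r : ℝ} (ha : w a ≤ r) (hb : w b ≤ r) : w (a - b) ≤ r := by
  rw [sub_eq_add_neg]
  exact na_add hw ha (by rwa [w_neg])
theorem na_sub_lt (hw : IsNonarchimedean w) {a b : Ω} {r : ℝ} (ha : w a < r) (hb : w b < r) :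
    w (a - b) < r := by
  rw [sub_eq_add_neg]
  exact na_add_lt hw ha (by rwa [w_neg])
theorem mul_le1 {a b : Ω} (ha : w a ≤ 1) (hb : w b ≤ 1) : w (a * b) ≤ 1 := by
  rw [map_mul]
  exact mul_le_one₀ ha (w.nonneg _) hb
theorem mul_lt1 {a b : Ω} (ha : w a ≤ 1) (hb : w b < 1) : w (a * b) < 1 := by
  rw [map_mul]
  exact mul_lt_one_of_nonneg_of_lt_one_right ha (w.nonneg _) hb
theorem pow_le1 {a : Ω} (ha : w a ≤ 1) (n : ℕ) : w (a ^ n) ≤ 1 := by
  rw [map_pow]
  exact pow_le_one₀ (w.nonneg _) ha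
theorem na_sum (hw : IsNonarchimedean w) {I : Type*} (s : Finset I) (f : I → Ω) (h : ∀ i ∈ s, w (f i) ≤ 1) :
    w (∑ i ∈ s, f i) ≤ 1 := by
  classical
  induction s using Finset.induction with
  | empty => rw [Finset.sum_empty, map_zero]; exact zero_le_one
  | insert a s ha ih =>
    rw [Finset.sum_insert ha]
    exact na_add hw (h a (Finset.mem_insert_self _ _)) (ih fun i hi => h i (Finset.mem_insert_of_mem hi))

theorem hev_le (hw : IsNonarchimedean w) (n : ℕ) {A : Polynomial Ω} (hA : ∀ i, w (A.coeff i) ≤ 1) {Z : Ω × Ω}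
    (h1 : w Z.1 ≤ 1) (h2 : w Z.2 ≤ 1) : w (hev n A Z) ≤ 1 := by
  unfold hev
  exact na_sum hw _ _ fun i _ => mul_le1 (mul_le1 (hA i) (pow_le1 h1 i)) (pow_le1 h2 _)

theorem wd_le (hw : IsNonarchimedean w) {X Y : Ω × Ω} (h1 : w X.1 ≤ 1) (h2 : w X.2 ≤ 1) (h3 : w Y.1 ≤ 1)
    (h4 : w Y.2 ≤ 1) : w (wd X Y) ≤ 1 := by
  unfold wd
  exact na_sub hw (mul_le1 h1 h4) (mul_le1 h2 h3)

/-- congruence modulo the maximal ideal -/
def cg (w : AbsoluteValue Ω ℝ) (a b : Ω) : Prop := w a ≤ 1 ∧ w b ≤ 1 ∧ w (a - b) < 1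

theorem cg_refl {a : Ω} (ha : w a ≤ 1) : cg w a a := by
  refine ⟨ha, ha, ?_⟩
  rw [sub_self, map_zero]
  exact zero_lt_one

theorem cg_mul (hw : IsNonarchimedean w) {a b a' b' : Ω} (h : cg w a b) (h' : cg w a' b') :
    cg w (a * a') (b * b') := by
  refine ⟨mul_le1 h.1 h'.1, mul_le1 h.2.1 h'.2.1, ?_⟩
  have e : a * a' - b * b' = a * (a' - b') + b' * (a - b) := by ring
  rw [e]
  exact na_add_lt hw (mul_lt1 h.1 h'.2.2) (mul_lt1 h'.2.1 h.2.2)

theorem cg_add (hw : IsNonarchimedean w) {a b a' b' : Ω} (h : cg w a b) (h' : cg w a' b') :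
    cg w (a + a') (b + b') := by
  refine ⟨na_add hw h.1 h'.1, na_add hw h.2.1 h'.2.1, ?_⟩
  have e : a + a' - (b + b') = (a - b) + (a' - b') := by ring
  rw [e]
  exact na_add_lt hw h.2.2 h'.2.2

theorem cg_pow (hw : IsNonarchimedean w) {a b : Ω} (h : cg w a b) (n : ℕ) : cg w (a ^ n) (b ^ n) := by
  induction n with
  | zero =>
    rw [pow_zero, pow_zero]
    exact cg_refl (by rw [map_one])
  | succ n ih =>
    rw [pow_succ, pow_succ]
    exact cg_mul hw ih h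

theorem cg_sum (hw : IsNonarchimedean w) {I : Type*} (s : Finset I) (f g : I → Ω)
    (h : ∀ i ∈ s, cg w (f i) (g i)) : cg w (∑ i ∈ s, f i) (∑ i ∈ s, g i) := by
  classical
  induction s using Finset.induction with
  | empty =>
    rw [Finset.sum_empty, Finset.sum_empty]
    exact cg_refl (by rw [map_zero]; exact zero_le_one)
  | insert a s ha ih =>
    rw [Finset.sum_insert ha, Finset.sum_insert ha]
    exact cg_add hw (h a (Finset.mem_insert_self _ _)) (ih fun i hi => h i (Finset.mem_insert_of_mem hi))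

theorem cg_hev (hw : IsNonarchimedean w) {A : Polynomial Ω} (hA : ∀ i, w (A.coeff i) ≤ 1) {X Y : Ω × Ω}
    (h1 : cg w X.1 Y.1) (h2 : cg w X.2 Y.2) : cg w (hev d A X) (hev d A Y) := by
  unfold hev
  exact cg_sum hw _ _ _ fun i _ => cg_mul hw (cg_mul hw (cg_refl (hA i)) (cg_pow hw h1 i)) (cg_pow hw h2 _)

/-- good reduction -/
structure GR (w : AbsoluteValue Ω ℝ) (d : ℕ) (P Q : Polynomial Ω) : Prop where
  cp : ∀ i, w (P.coeff i) ≤ 1
  cq : ∀ i, w (Q.coeff i) ≤ 1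
  un : ∀ Z, Un w Z → Un w (bK d P Q Z)

theorem GR.iter (h : GR w d P Q) (n : ℕ) {Z : Ω × Ω} (hZ : Un w Z) : Un w ((bK d P Q)^[n] Z) := by
  induction n with
  | zero => exact hZ
  | succ n ih =>
    rw [Function.iterate_succ_apply']
    exact h.un _ ih

theorem smul_un {X Y : Ω × Ω} (hX : Un w X) (hY : Un w Y) {t : Ω} (h : X = t • Y) : w t = 1 := by
  unfold Un at hX hY
  rw [h, Prod.smul_fst, Prod.smul_snd, smul_eq_mul, smul_eq_mul, map_mul, map_mul,
    ← mul_max_of_nonneg _ _ (w.nonneg t), hY, mul_one] at hX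
  exact hX

theorem red (hw : IsNonarchimedean w) {X Y : Ω × Ω} (hX : Un w X) (hY : Un w Y) (h : w (wd X Y) < 1) :
    ∃ t : Ω, w t ≤ 1 ∧ cg w X.1 (t * Y.1) ∧ cg w X.2 (t * Y.2) := by
  obtain ⟨U, hU1, hU2, hU⟩ : ∃ U : Ω × Ω, w U.1 ≤ 1 ∧ w U.2 ≤ 1 ∧ w (wd Y U) = 1 := by
    rcases hY.or with h1 | h1
    · refine ⟨(0, 1), ?_, ?_, ?_⟩
      · show w 0 ≤ 1
        rw [map_zero]
        exact zero_le_one
      · show w 1 ≤ 1
        rw [map_one]
      · have : wd Y (0, 1) = Y.1 := by unfold wd; ring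
        rw [this, h1]
    · refine ⟨(1, 0), ?_, ?_, ?_⟩
      · show w 1 ≤ 1
        rw [map_one]
      · show w 0 ≤ 1
        rw [map_zero]
        exact zero_le_one
      · have : wd Y (1, 0) = -Y.2 := by unfold wd; ring
        rw [this, w_neg, h1]
  have hne : wd Y U ≠ 0 := by
    intro h0
    rw [h0, map_zero] at hU
    exact zero_ne_one hU
  have h3 := wd_three X Y U
  set s := wd Y U with hs
  have hsi : w s⁻¹ = 1 := by rw [map_inv₀, hU, inv_one]
  have hXU : w (wd X U) ≤ 1 := wd_le hw hX.le1 hX.le2 hU1 hU2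
  have ht : w (s⁻¹ * wd X U) ≤ 1 := mul_le1 hsi.le hXU
  have e1 : X.1 - s⁻¹ * wd X U * Y.1 = -(s⁻¹ * (U.1 * wd X Y)) := by
    have h4 := congrArg Prod.fst h3
    simp only [Prod.smul_fst, Prod.fst_sub, smul_eq_mul] at h4
    field_simp
    linear_combination h4
  have e2 : X.2 - s⁻¹ * wd X U * Y.2 = -(s⁻¹ * (U.2 * wd X Y)) := by
    have h4 := congrArg Prod.snd h3
    simp only [Prod.smul_snd, Prod.snd_sub, smul_eq_mul] at h4
    field_simp
    linear_combination h4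
  refine ⟨s⁻¹ * wd X U, ht, ⟨hX.le1, mul_le1 ht hY.le1, ?_⟩, ⟨hX.le2, mul_le1 ht hY.le2, ?_⟩⟩
  · rw [e1, w_neg]
    exact mul_lt1 hsi.le (mul_lt1 hU1 h)
  · rw [e2, w_neg]
    exact mul_lt1 hsi.le (mul_lt1 hU2 h)

theorem wd_step (hw : IsNonarchimedean w) (hG : GR w d P Q) {X Y : Ω × Ω} (hX : Un w X) (hY : Un w Y)
    (h : w (wd X Y) < 1) : w (wd (bK d P Q X) (bK d P Q Y)) < 1 := by
  obtain ⟨t, ht, h1, h2⟩ := red hw hX hY h
  have e1 : cg w (hev d P X) (hev d P (t • Y)) := cg_hev hw hG.cp h1 h2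
  have e2 : cg w (hev d Q X) (hev d Q (t • Y)) := cg_hev hw hG.cq h1 h2
  rw [hev_smul] at e1 e2
  have hFY := hG.un Y hY
  have e3 : wd (bK d P Q X) (bK d P Q Y) = (bK d P Q Y).2 * (hev d P X - t ^ d * hev d P Y) -
      (bK d P Q Y).1 * (hev d Q X - t ^ d * hev d Q Y) := by
    unfold wd bK
    ring
  rw [e3]
  exact na_sub_lt hw (mul_lt1 hFY.le2 e1.2.2) (mul_lt1 hFY.le1 e2.2.2)

theorem wd_steps (hw : IsNonarchimedean w) (hG : GR w d P Q) {X Y : Ω × Ω} (hX : Un w X) (hY : Un w Y)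
    (h : w (wd X Y) < 1) (n : ℕ) : w (wd ((bK d P Q)^[n] X) ((bK d P Q)^[n] Y)) < 1 := by
  induction n with
  | zero => exact h
  | succ n ih =>
    rw [Function.iterate_succ_apply', Function.iterate_succ_apply']
    exact wd_step hw hG (hG.iter n hX) (hG.iter n hY) ih

end abs

section glob

variable {K Ω : Type*} [Field K] [Field Ω] (ι : K →+* Ω) {d : ℕ} {p q : K[X]}

/-- the elements of `T` are units -/
def UT (ι : K →+* Ω) (w : AbsoluteValue Ω ℝ) (T : Finset K) : Prop := ∀ x ∈ T, x ≠ 0 → w (ι x) = 1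

theorem UT.le {w : AbsoluteValue Ω ℝ} {T : Finset K} (h : UT ι w T) {x : K} (hx : x ∈ T ∨ x = 0) :
    w (ι x) ≤ 1 := by
  by_cases h0 : x = 0
  · rw [h0, map_zero, map_zero]
    exact zero_le_one
  · exact (h x (hx.resolve_right h0) h0).le

theorem UT.coeff {w : AbsoluteValue Ω ℝ} {T : Finset K} (h : UT ι w T) {A : K[X]} (hA : A.coeffs ⊆ T)
    (i : ℕ) : w ((A.map ι).coeff i) ≤ 1 := by
  rw [coeff_map]
  apply h.le ι
  by_cases h0 : A.coeff i = 0
  · exact Or.inr h0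
  · exact Or.inl (hA (coeff_mem_coeffs h0))

theorem exists_GR (hd : 1 ≤ d) (h : Rat d p q) : ∃ T : Finset K, ∀ w : AbsoluteValue Ω ℝ,
    IsNonarchimedean w → UT ι w T → GR w d (p.map ι) (q.map ι) := by
  classical
  obtain ⟨n, a, b, hab⟩ := bez ι hd h.1 (rat_p h) (rat_q h)
  obtain ⟨n', a', b', hab'⟩ := bez' ι hd h
  refine ⟨p.coeffs ∪ q.coeffs ∪ (a.coeffs ∪ b.coeffs) ∪ (a'.coeffs ∪ b'.coeffs), fun w hw hT => ?_⟩
  have hp := hT.coeff ι (A := p) (by
    intro x hx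
    simp only [Finset.mem_union]
    tauto)
  have hq := hT.coeff ι (A := q) (by
    intro x hx
    simp only [Finset.mem_union]
    tauto)
  have ha := hT.coeff ι (A := a) (by
    intro x hx
    simp only [Finset.mem_union]
    tauto)
  have hb := hT.coeff ι (A := b) (by
    intro x hx
    simp only [Finset.mem_union]
    tauto)
  have ha' := hT.coeff ι (A := a') (by
    intro x hx
    simp only [Finset.mem_union]
    tauto)
  have hb' := hT.coeff ι (A := b') (by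
    intro x hx
    simp only [Finset.mem_union]
    tauto)
  refine ⟨hp, hq, fun Z hZ => ?_⟩
  have h1 : w (hev d (p.map ι) Z) ≤ 1 := hev_le hw d hp hZ.le1 hZ.le2
  have h2 : w (hev d (q.map ι) Z) ≤ 1 := hev_le hw d hq hZ.le1 hZ.le2
  refine Un.mk h1 h2 ?_
  rintro ⟨h3, h4⟩
  have h3' : w (hev d (p.map ι) Z) < 1 := h3
  have h4' : w (hev d (q.map ι) Z) < 1 := h4
  have e1 : w (Z.2 ^ (n + d)) < 1 := by
    rw [← hab Z]
    exact na_add_lt hw (mul_lt1 (hev_le hw n ha hZ.le1 hZ.le2) h3')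
      (mul_lt1 (hev_le hw n hb hZ.le1 hZ.le2) h4')
  have e2 : w (Z.1 ^ (n' + d)) < 1 := by
    rw [← hab' Z]
    exact na_add_lt hw (mul_lt1 (hev_le hw n' ha' hZ.le2 hZ.le1) h3')
      (mul_lt1 (hev_le hw n' hb' hZ.le2 hZ.le1) h4')
  rcases hZ.or with h5 | h5
  · rw [map_pow, h5, one_pow] at e2
    exact lt_irrefl _ e2
  · rw [map_pow, h5, one_pow] at e1
    exact lt_irrefl _ e1

/-- the cycles of the periodic critical points -/
theorem exists_PS (hd : 1 ≤ d) (h : Rat d p q) (D : Finset (K × K)) (hD : ∀ y ∈ D, y ≠ 0) :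
    ∃ PS : Finset (K × K), (∀ y ∈ PS, y ≠ 0 ∧ ∃ m, 1 ≤ m ∧ wd ((bK d p q)^[m] y) y = 0) ∧
      ∀ y ∈ D, ∀ m, 1 ≤ m → wd ((bK d p q)^[m] y) y = 0 → ∀ n, ∃ z ∈ PS,
        wd ((bK d p q)^[n] y) z = 0 := by
  classical
  have h1 : ∀ y : K × K, ∃ m : ℕ, 1 ≤ m ∧ ((∃ m, 1 ≤ m ∧ wd ((bK d p q)^[m] y) y = 0) →
      wd ((bK d p q)^[m] y) y = 0) := by
    intro y
    by_cases hy : ∃ m, 1 ≤ m ∧ wd ((bK d p q)^[m] y) y = 0
    · obtain ⟨m, hm1, hm2⟩ := hy
      exact ⟨m, hm1, fun _ => hm2⟩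
    · exact ⟨1, le_rfl, fun h => absurd h hy⟩
  choose M hM1 hM2 using h1
  refine ⟨(D.filter fun y => ∃ m, 1 ≤ m ∧ wd ((bK d p q)^[m] y) y = 0).biUnion fun y =>
    (range (M y)).image fun i => (bK d p q)^[i] y, ?_, ?_⟩
  · intro z hz
    rw [Finset.mem_biUnion] at hz
    obtain ⟨y, hy, hz⟩ := hz
    rw [Finset.mem_image] at hz
    obtain ⟨i, hi, rfl⟩ := hz
    rw [Finset.mem_filter] at hy
    have hy0 := hD y hy.1
    refine ⟨iter_ne hd h i y hy0, M y, hM1 y, ?_⟩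
    have h2 := wd_iter (d := d) (p := p) (q := q) (iter_ne hd h (M y) y hy0) hy0 (hM2 y hy.2) i
    rw [← Function.iterate_add_apply, add_comm, Function.iterate_add_apply] at h2
    exact h2
  · intro y hy m hm1 hm2 n
    have hy0 := hD y hy
    have hper := hM2 y ⟨m, hm1, hm2⟩
    refine ⟨(bK d p q)^[n % M y] y, ?_, ?_⟩
    · rw [Finset.mem_biUnion]
      refine ⟨y, Finset.mem_filter.2 ⟨hy, m, hm1, hm2⟩, ?_⟩
      rw [Finset.mem_image]
      exact ⟨n % M y, Finset.mem_range.2 (Nat.mod_lt _ (hM1 y)), rfl⟩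
    · have h2 : ∀ k, wd ((bK d p q)^[M y * k] y) y = 0 := by
        intro k
        induction k with
        | zero => exact wd_self y
        | succ k ih =>
          rw [Nat.mul_succ, add_comm, Function.iterate_add_apply]
          have h3 := wd_iter (d := d) (p := p) (q := q) (iter_ne hd h (M y * k) y hy0) hy0 ih (M y)
          exact wd_trans (iter_ne hd h _ _ (iter_ne hd h _ _ hy0)) (iter_ne hd h _ _ hy0) h3 hper
      have h3 := wd_iter (d := d) (p := p) (q := q) (iter_ne hd h (M y * (n / M y)) y hy0) hy0 (h2 (n / M y)) (n % M y)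
      rw [← Function.iterate_add_apply, Nat.mod_add_div] at h3
      exact h3

end glob

end Pool.Agent.Q177.OP.Pcf
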