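import Pool.Agent.Q177.OP.PcfB

/-!
# Project OP, job PCF: conjugation and the core
-/

set_option autoImplicit false
set_option linter.unusedSectionVars false
set_option linter.unusedVariables false
set_option linter.style.longLine false

namespace Pool.Agent.Q177.OP.Pcf

open Pool.Agent.W277.UB Pool.Agent.W277.UH Finset Polynomial Pool.Agent.Q103.OP
open Pool.Agent.Y706.CH (bK)

universe u

section conj

variable {K : Type*} [Field K] {d : ℕ} {p q : K[X]}

theorem hev_lin (a b : K) (f g : K[X]) (W : K × K) :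
    hev d (C a * f + C b * g) W = a * hev d f W + b * hev d g W := by
  unfold hev
  rw [Finset.mul_sum, Finset.mul_sum, ← Finset.sum_add_distrib]
  refine Finset.sum_congr rfl fun i _ => ?_
  rw [coeff_add, coeff_C_mul, coeff_C_mul]
  ring

theorem hev_hc (A : K[X]) (α β γ δ : K) (W : K × K) :
    hev d (hc d A (C α * X + C β) (C γ * X + C δ)) W =
      hev d A (α * W.1 + β * W.2, γ * W.1 + δ * W.2) := by
  by_cases hW : W.2 = 0
  · have e : W = (W.1, 0) := Prod.ext rfl hW
    have h1 := hc_coeff d 1 A (C α * X + C β) (C γ * X + C δ) (lin_deg α β) (lin_deg γ δ)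
    rw [mul_one] at h1
    have e1 : (C α * X + C β : K[X]).coeff 1 = α := by simp [coeff_C]
    have e2 : (C γ * X + C δ : K[X]).coeff 1 = γ := by simp [coeff_C]
    rw [e1, e2] at h1
    rw [e, hev_zero, h1, mul_comm, ← hev_smul]
    congr 1
    ext
    · simp only [Prod.smul_fst, smul_eq_mul]
      ring
    · simp only [Prod.smul_snd, smul_eq_mul]
      ring
  · have h1 := hc_degree d 1 A (C α * X + C β) (C γ * X + C δ) (lin_deg α β) (lin_deg γ δ)
    rw [mul_one] at h1
    rw [hev_eval d _ h1 W hW, hc_eval, ← hev_smul]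
    congr 1
    ext
    · simp only [Prod.smul_fst, smul_eq_mul, eval_add, eval_mul, eval_C, eval_X]
      field_simp
    · simp only [Prod.smul_snd, smul_eq_mul, eval_add, eval_mul, eval_C, eval_X]
      field_simp

theorem exists_conj [Infinite K] (k : Type*) [Field k] [Algebra k K] (hd : 1 ≤ d) (hR : Rat d p q)
    (a b c e : K) (hD : a * e - b * c ≠ 0) :
    ∃ p' q' : K[X], p'.natDegree ≤ d ∧ q'.natDegree ≤ d ∧ IsCoprime p' q' ∧
      (∀ Z, bK d p' q' (lm a b c e Z) = (a * e - b * c) ^ d • lm a b c e (bK d p q Z)) ∧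
      (ConjConst k p' q' d → ConjConst k p q d) := by
  obtain ⟨p', hp'⟩ : ∃ p' : K[X], p' = C a * hc d p (C e * X + C (-b)) (C (-c) * X + C a) +
    C b * hc d q (C e * X + C (-b)) (C (-c) * X + C a) := ⟨_, rfl⟩
  obtain ⟨q', hq'⟩ : ∃ q' : K[X], q' = C c * hc d p (C e * X + C (-b)) (C (-c) * X + C a) +
    C e * hc d q (C e * X + C (-b)) (C (-c) * X + C a) := ⟨_, rfl⟩
  have hdeg : ∀ (s t : K) (A B : K[X]), (C s * hc d A (C e * X + C (-b)) (C (-c) * X + C a) +
      C t * hc d B (C e * X + C (-b)) (C (-c) * X + C a)).natDegree ≤ d := by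
    intro s t A B
    have h1 : ∀ A : K[X], (hc d A (C e * X + C (-b)) (C (-c) * X + C a)).natDegree ≤ d := by
      intro A
      have h1 := hc_degree d 1 A _ _ (lin_deg e (-b)) (lin_deg (-c) a)
      rwa [mul_one] at h1
    exact (natDegree_add_le _ _).trans (max_le ((natDegree_C_mul_le _ _).trans (h1 A))
      ((natDegree_C_mul_le _ _).trans (h1 B)))
  have hp'd : p'.natDegree ≤ d := by rw [hp']; exact hdeg _ _ _ _
  have hq'd : q'.natDegree ≤ d := by rw [hq']; exact hdeg _ _ _ _
  have hact : ∀ Z, bK d p' q' (lm a b c e Z) = (a * e - b * c) ^ d • lm a b c e (bK d p q Z) := by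
    intro Z
    have h1 : ∀ A : K[X], hev d (hc d A (C e * X + C (-b)) (C (-c) * X + C a)) (lm a b c e Z) =
        (a * e - b * c) ^ d * hev d A Z := by
      intro A
      rw [hev_hc, ← hev_smul]
      congr 1
      unfold lm
      ext
      · simp only [Prod.smul_fst, smul_eq_mul]
        ring
      · simp only [Prod.smul_snd, smul_eq_mul]
        ring
    unfold bK
    rw [hp', hq', hev_lin, hev_lin, h1, h1]
    unfold lm
    ext
    · simp only [Prod.smul_fst, smul_eq_mul]
      ring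
    · simp only [Prod.smul_snd, smul_eq_mul]
      ring
  refine ⟨p', q', hp'd, hq'd, ?_, hact, ?_⟩
  · refine (isCoprime_iff_aeval_ne_zero_of_isAlgClosed (k := K) (AlgebraicClosure K) _ _).mpr ?_
    intro y
    by_contra hcon
    push Not at hcon
    obtain ⟨h1, h2⟩ := hcon
    rw [hp', map_add, map_mul, map_mul, hc_aeval, hc_aeval, aeval_C, aeval_C] at h1
    rw [hq', map_add, map_mul, map_mul, hc_aeval, hc_aeval, aeval_C, aeval_C] at h2
    set φ := algebraMap K (AlgebraicClosure K) with hφ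
    have e1 : aeval y (C e * X + C (-b) : K[X]) = φ e * y - φ b := by simp [hφ, sub_eq_add_neg]
    have e2 : aeval y (C (-c) * X + C a : K[X]) = φ a - φ c * y := by
      simp only [map_add, map_mul, aeval_C, aeval_X, map_neg]
      ring
    rw [e1, e2] at h1 h2
    have hDφ : φ a * φ e - φ b * φ c ≠ 0 := by
      rw [← map_mul, ← map_mul, ← map_sub]
      exact (map_ne_zero φ).2 hD
    have g1 : hev d (p.map φ) (φ e * y - φ b, φ a - φ c * y) = 0 := by
      have g0 : (φ a * φ e - φ b * φ c) * hev d (p.map φ) (φ e * y - φ b, φ a - φ c * y) = 0 := by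
        linear_combination (φ e) * h1 - (φ b) * h2
      exact (mul_eq_zero.1 g0).resolve_left hDφ
    have g2 : hev d (q.map φ) (φ e * y - φ b, φ a - φ c * y) = 0 := by
      have g0 : (φ a * φ e - φ b * φ c) * hev d (q.map φ) (φ e * y - φ b, φ a - φ c * y) = 0 := by
        linear_combination (φ a) * h2 - (φ c) * h1
      exact (mul_eq_zero.1 g0).resolve_left hDφ
    have g3 : (φ e * y - φ b, φ a - φ c * y) ≠ (0 : AlgebraicClosure K × AlgebraicClosure K) := by
      intro h
      have k1 : φ e * y - φ b = 0 := congrArg Prod.fst h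
      have k2 : φ a - φ c * y = 0 := congrArg Prod.snd h
      apply hDφ
      linear_combination (φ e) * k2 + (φ c) * k1
    exact bK_ne hd (Rat_map φ hR) _ g3 (Prod.ext g1 g2)
  · rintro ⟨A, B, G, E, hdet, u, w, hne, hu, hw, hid⟩
    refine ⟨A * a + B * c, A * b + B * e, G * a + E * c, G * b + E * e, ?_, u, w, hne, hu, hw, ?_⟩
    · have : (A * a + B * c) * (G * b + E * e) - (A * b + B * e) * (G * a + E * c) =
          (A * E - B * G) * (a * e - b * c) := by ring
      rw [this]
      exact mul_ne_zero hdet hD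
    · apply Polynomial.eq_of_infinite_eval_eq
      have hfin : {x : K | c * x + e = 0}.Finite := by
        by_cases hc0 : c = 0
        · have he : e ≠ 0 := by
            rintro rfl
            apply hD
            rw [hc0]
            ring
          refine (Set.finite_empty).subset ?_
          intro x hx
          have hx' : c * x + e = 0 := hx
          rw [hc0, zero_mul, zero_add] at hx'
          exact he hx'
        · refine (Set.finite_singleton (-e / c)).subset ?_
          intro x hx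
          have hx' : c * x + e = 0 := hx
          rw [Set.mem_singleton_iff, eq_div_iff hc0]
          linear_combination hx'
      refine hfin.infinite_compl.mono ?_
      intro x hx
      have hs : c * x + e ≠ 0 := hx
      have h1 := congrArg (eval ((a * x + b) / (c * x + e))) hid
      rw [eval_mul, eval_mul, hc_eval, hc_eval] at h1
      simp only [eval_add, eval_mul, eval_C, eval_X] at h1
      have h2 : (c * x + e) ^ d • bK d p' q' ((a * x + b) / (c * x + e), 1) =
          (a * e - b * c) ^ d • lm a b c e (bK d p q (x, 1)) := by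
        rw [← bK_smul, ← hact]
        congr 1
        unfold lm
        ext
        · simp only [Prod.smul_fst, smul_eq_mul]
          field_simp
        · simp only [Prod.smul_snd, smul_eq_mul]
          ring
      unfold bK at h2
      rw [hev_one d _ hp'd, hev_one d _ hq'd, hev_one d _ (rat_p hR), hev_one d _ (rat_q hR)] at h2
      have h3 := congrArg Prod.fst h2
      have h4 := congrArg Prod.snd h2
      simp only [lm, Prod.smul_fst, Prod.smul_snd, smul_eq_mul] at h3 h4
      have h5 : ∀ g : K[X], (c * x + e) ^ d * hev d g (A * ((a * x + b) / (c * x + e)) + B,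
          G * ((a * x + b) / (c * x + e)) + E) =
          hev d g ((A * a + B * c) * x + (A * b + B * e), (G * a + E * c) * x + (G * b + E * e)) := by
        intro g
        rw [← hev_smul]
        congr 1
        ext
        · simp only [Prod.smul_fst, smul_eq_mul]
          field_simp
          ring
        · simp only [Prod.smul_snd, smul_eq_mul]
          field_simp
          ring
      rw [Set.mem_setOf_eq, eval_mul, eval_mul, hc_eval, hc_eval]
      simp only [eval_add, eval_mul, eval_C, eval_X]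
      rw [← h5, ← h5]
      have hDd : (a * e - b * c) ^ d ≠ 0 := pow_ne_zero d hD
      apply mul_left_cancel₀ hDd
      set W1 := hev d (w.map (algebraMap k K)) (A * ((a * x + b) / (c * x + e)) + B,
          G * ((a * x + b) / (c * x + e)) + E)
      set U1 := hev d (u.map (algebraMap k K)) (A * ((a * x + b) / (c * x + e)) + B,
          G * ((a * x + b) / (c * x + e)) + E)
      linear_combination ((c * x + e) ^ d * (c * x + e) ^ d) * h1 -
        (A * (c * x + e) ^ d * W1 - G * (c * x + e) ^ d * U1) * h3 -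
        (B * (c * x + e) ^ d * W1 - E * (c * x + e) ^ d * U1) * h4

end conj

section units

variable {K Ω : Type u} [Field K] [CharZero K] [Field Ω] [CharZero Ω] [IsAlgClosed Ω] (ι : K →+* Ω)
  {d : ℕ} {p q : K[X]}

theorem un_of_T {w : AbsoluteValue Ω ℝ} {T : Finset K} (hT : UT ι w T) {y : K × K} (hy : y ≠ 0)
    (h1 : y.1 ∈ T) (h2 : y.2 ∈ T) : Un w (vm ι y) := by
  refine Un.mk (hT.le ι (Or.inl h1)) (hT.le ι (Or.inl h2)) ?_
  rintro ⟨h3, h4⟩
  apply hy
  refine Prod.ext ?_ ?_
  · by_contra h5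
    have := hT _ h1 h5
    exact absurd this h3.ne
  · by_contra h5
    have := hT _ h2 h5
    exact absurd this h4.ne

/-- the first claim -/
theorem claim1 (hGP : S_GP.{u}) (hd : 2 ≤ d) (hR : Rat d p q) (hsp : (Wr p q).Splits)
    {w : AbsoluteValue Ω ℝ} (hw : IsNonarchimedean w) (hG : GR w d (p.map ι) (q.map ι))
    (hmul : ∀ m, 1 ≤ m → ∀ (Z : Ω × Ω) (μ : Ω), Z ≠ 0 → μ ≠ 0 →
      (bK d (p.map ι) (q.map ι))^[m] Z = μ • Z → mlt d (p.map ι) (q.map ι) m Z μ ≠ 0 →
      w (mlt d (p.map ι) (q.map ι) m Z μ) = 1)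
    (c : K × K) (hc : Un w (vm ι c)) (hJ : Jv d p q c = 0)
    (hinf : ∀ m, 1 ≤ m → wd ((bK d p q)^[m] c) c ≠ 0) (PS : Finset (K × K))
    (hPS1 : ∀ y ∈ PS, y ≠ 0 ∧ ∃ m, 1 ≤ m ∧ wd ((bK d p q)^[m] y) y = 0)
    (hPS2 : ∀ y ∈ cs p q, ∀ m, 1 ≤ m → wd ((bK d p q)^[m] y) y = 0 → ∀ n, ∃ z ∈ PS,
        wd ((bK d p q)^[n] y) z = 0)
    (hPSu : ∀ y ∈ PS, Un w (vm ι y)) (hPSw : ∀ y ∈ PS, wd y c ≠ 0 → w (ι (wd y c)) = 1)
    (N : ℕ) (hN : 1 ≤ N) : ¬ w (wd ((bK d (p.map ι) (q.map ι))^[N] (vm ι c)) (vm ι c)) < 1 := by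
  classical
  intro hlt
  have hd1 : 1 ≤ d := by omega
  have hR' := Rat_map ι hR
  have hc0 : c ≠ 0 := by
    rintro rfl
    apply hc.ne
    unfold vm
    simp
  have hne : wd ((bK d (p.map ι) (q.map ι))^[N] (vm ι c)) (vm ι c) ≠ 0 := by
    rw [iter_vm, wd_vm]
    exact (map_ne_zero ι).2 (hinf N hN)
  obtain ⟨Y, μ, hY, hμ, hper, hYc, hm⟩ := hGP Ω w hw d hd (p.map ι) (q.map ι) (rat_p hR') (rat_q hR')
    (fun i => ⟨hG.cp i, hG.cq i⟩) hG.un (vm ι c) hc (by rw [Jv_vm, hJ, map_zero]) N hN hne hlt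
  have hY0 : Y ≠ 0 := Un.ne hY
  have hμ0 : μ ≠ 0 := by
    rintro rfl
    rw [map_zero] at hμ
    exact zero_ne_one hμ
  have hm0 : mlt d (p.map ι) (q.map ι) N Y μ = 0 := by
    by_contra h
    have := hmul N hN Y μ hY0 hμ0 hper h
    exact absurd this hm.ne
  unfold mlt at hm0
  rw [div_eq_zero_iff] at hm0
  have hprod := hm0.resolve_right (pow_ne_zero 2 hμ0)
  rw [Finset.prod_eq_zero_iff] at hprod
  obtain ⟨j, hj, hj0⟩ := hprod
  rw [Finset.mem_range] at hj
  have hFj := iter_ne hd1 hR' j Y hY0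
  obtain ⟨y, hy, hyj⟩ := crit_vec ι hd1 hR hsp _ hFj hj0
  have hy0 := cs_ne hy
  have hvy := vm_ne ι hy0
  -- periodicity
  have h1 : wd ((bK d (p.map ι) (q.map ι))^[N] ((bK d (p.map ι) (q.map ι))^[j] Y))
      ((bK d (p.map ι) (q.map ι))^[j] Y) = 0 := by
    rw [← Function.iterate_add_apply, add_comm, Function.iterate_add_apply, hper, iter_smul,
      wd_smul_left, wd_self, mul_zero]
  have hyj' : wd (vm ι y) ((bK d (p.map ι) (q.map ι))^[j] Y) = 0 := by
    rw [wd_comm, hyj, neg_zero]
  have h2 := wd_iter (d := d) (p := p.map ι) (q := q.map ι) hvy hFj hyj' N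
  have h3 : wd ((bK d (p.map ι) (q.map ι))^[N] (vm ι y)) (vm ι y) = 0 :=
    wd_trans (iter_ne hd1 hR' N _ hvy) (iter_ne hd1 hR' N _ hFj) h2 (wd_trans
      (iter_ne hd1 hR' N _ hFj) hFj h1 hyj)
  rw [iter_vm, wd_vm] at h3
  have h4 := (map_eq_zero ι).1 h3
  obtain ⟨z, hz, hz2⟩ := hPS2 y hy N hN h4 (N - j)
  -- Y is parallel to z
  have h5 := wd_iter (d := d) (p := p.map ι) (q := q.map ι) hFj hvy hyj (N - j)
  rw [← Function.iterate_add_apply, show N - j + j = N by omega, hper, wd_smul_left, iter_vm] at h5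
  have h6 := (mul_eq_zero.1 h5).resolve_left hμ0
  have h7 : wd (vm ι ((bK d p q)^[N - j] y)) (vm ι z) = 0 := by
    rw [wd_vm, hz2, map_zero]
  have h8 : wd Y (vm ι z) = 0 :=
    wd_trans hY0 (vm_ne ι (iter_ne hd1 hR (N - j) y hy0)) h6 h7
  have hzu := hPSu z hz
  obtain ⟨t, ht0, ht⟩ := par hY0 hzu.ne h8
  have htw := smul_un hY hzu ht
  rw [ht, wd_smul_left, map_mul, htw, one_mul, wd_vm] at hYc
  have hzc : wd z c ≠ 0 := by
    intro h9
    obtain ⟨hz0, m, hm1, hm2⟩ := hPS1 z hz
    apply hinf m hm1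
    have h10 : wd c z = 0 := by rw [wd_comm, h9, neg_zero]
    have h11 := wd_iter (d := d) (p := p) (q := q) hc0 hz0 h10 m
    exact wd_trans (iter_ne hd1 hR m c hc0) (iter_ne hd1 hR m z hz0) h11 (wd_trans
      (iter_ne hd1 hR m z hz0) hz0 hm2 h9)
  exact absurd (hPSw z hz hzc) hYc.ne

/-- the second claim -/
theorem claim2 (hd : 2 ≤ d) (hR : Rat d p q)
    {w : AbsoluteValue Ω ℝ} (hw : IsNonarchimedean w) (hG : GR w d (p.map ι) (q.map ι))
    (c : K × K) (hc : Un w (vm ι c))
    (hcl : ∀ N, 1 ≤ N → ¬ w (wd ((bK d (p.map ι) (q.map ι))^[N] (vm ι c)) (vm ι c)) < 1)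
    (b : K × K) (hb : Un w (vm ι b)) (l : ℕ) (hbl : wd ((bK d p q)^[l] b) c = 0) (n : ℕ) (hn : 1 ≤ n) :
    w (ι (wd ((bK d p q)^[n] c) b)) = 1 := by
  have hd1 : 1 ≤ d := by omega
  have hR' := Rat_map ι hR
  have hb0 : b ≠ 0 := by
    rintro rfl
    apply hb.ne
    unfold vm
    simp
  have hc0 : c ≠ 0 := by
    rintro rfl
    apply hc.ne
    unfold vm
    simp
  have hx := hG.iter n hc
  refine le_antisymm ?_ ?_
  · rw [← wd_vm, ← iter_vm]
    exact wd_le hw hx.le1 hx.le2 hb.le1 hb.le2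
  · by_contra hcon
    rw [not_le, ← wd_vm, ← iter_vm] at hcon
    have h1 := wd_steps hw hG hx hb hcon l
    rw [← Function.iterate_add_apply] at h1
    have h2 : wd ((bK d (p.map ι) (q.map ι))^[l] (vm ι b)) (vm ι c) = 0 := by
      rw [iter_vm, wd_vm, hbl, map_zero]
    have hbu := hG.iter l hb
    obtain ⟨t, ht0, ht⟩ := par hbu.ne hc.ne h2
    have htw := smul_un hbu hc ht
    rw [ht, wd_smul_right, map_mul, htw, one_mul] at h1
    exact hcl (l + n) (by omega) h1

end units

end Pool.Agent.Q177.OP.Pcf
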