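import Pool.Agent.Q177.OP.PcfC

/-!
# Project OP, job PCF: the core
-/

set_option autoImplicit false
set_option linter.unusedSectionVars false
set_option linter.unusedVariables false
set_option linter.style.longLine false

namespace Pool.Agent.Q177.OP.Pcf

open Pool.Agent.W277.UB Pool.Agent.W277.UH Finset Polynomial Pool.Agent.Q103.OP
open Pool.Agent.Y706.CH (bK)

universe u

theorem core (hBAK : S_BAK.{u, u, u}) (hSUN : S_SUN.{u, u, u}) (hGP : S_GP.{u})
    (E K Ω : Type u) [Field E] [CharZero E] [Field K] [CharZero K] [Algebra E K] [Field Ω] [CharZero Ω]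
    [IsAlgClosed Ω] (ι : K →+* Ω) (Q : PlaceData.{u} E K)
    (hext : ∀ v : Q.Pl, ∃ w : AbsoluteValue Ω ℝ, IsNonarchimedean w ∧
      ∀ x : K, x ≠ 0 → w (ι x) = Real.exp (-(Q.ord v x : ℝ)))
    (d : ℕ) (hd : 2 ≤ d) (p q : K[X]) (hR : Rat d p q) (hsp : (Wr p q).Splits)
    (hcc : ¬ ConjConst E p q d)
    (hmul : ∀ m, 1 ≤ m → ∀ (Z : Ω × Ω) (μ : Ω), Z ≠ 0 → μ ≠ 0 →
      (bK d (p.map ι) (q.map ι))^[m] Z = μ • Z →
      ∃ c : E, ι (algebraMap E K c) = mlt d (p.map ι) (q.map ι) m Z μ)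
    (c : K × K) (hc : c ≠ 0) (hJ : Jv d p q c = 0)
    (hinf : ∀ i j, i < j → wd ((bK d p q)^[i] c) ((bK d p q)^[j] c) ≠ 0)
    (l : ℕ) (b : Fin 3 → K × K) (hb0 : ∀ i, b i ≠ 0) (hbb : ∀ i j, i ≠ j → wd (b i) (b j) ≠ 0)
    (hbl : ∀ i, wd ((bK d p q)^[l] (b i)) c = 0) : False := by
  classical
  have hd1 : 1 ≤ d := by omega
  obtain ⟨T1, hT1⟩ := exists_GR ι hd1 hR
  obtain ⟨PS, hPS1, hPS2⟩ := exists_PS hd1 hR (cs p q) (fun y hy => cs_ne hy)
  obtain ⟨V, hV⟩ : ∃ V : Finset (K × K), V = insert c (PS ∪ univ.image b) := ⟨_, rfl⟩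
  obtain ⟨T, hT⟩ : ∃ T : Finset K, T = T1 ∪ V.image Prod.fst ∪ V.image Prod.snd ∪
    (V ×ˢ V).image (fun x => wd x.1 x.2) := ⟨_, rfl⟩
  have hcV : c ∈ V := by rw [hV]; exact Finset.mem_insert_self _ _
  have hPSV : ∀ y ∈ PS, y ∈ V := by
    intro y hy
    rw [hV]
    exact Finset.mem_insert_of_mem (Finset.mem_union_left _ hy)
  have hbV : ∀ i, b i ∈ V := by
    intro i
    rw [hV]
    exact Finset.mem_insert_of_mem (Finset.mem_union_right _ (Finset.mem_image_of_mem _ (mem_univ _)))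
  have hT1T : T1 ⊆ T := by
    intro x hx
    rw [hT]
    simp only [Finset.mem_union]
    tauto
  have hV1 : ∀ y ∈ V, y.1 ∈ T := by
    intro y hy
    have := Finset.mem_image_of_mem Prod.fst hy
    rw [hT]
    simp only [Finset.mem_union]
    tauto
  have hV2 : ∀ y ∈ V, y.2 ∈ T := by
    intro y hy
    have := Finset.mem_image_of_mem Prod.snd hy
    rw [hT]
    simp only [Finset.mem_union]
    tauto
  have hV3 : ∀ y ∈ V, ∀ z ∈ V, wd y z ∈ T := by
    intro y hy z hz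
    have : wd y z ∈ (V ×ˢ V).image (fun x => wd x.1 x.2) :=
      Finset.mem_image.2 ⟨(y, z), Finset.mem_product.2 ⟨hy, hz⟩, rfl⟩
    rw [hT]
    simp only [Finset.mem_union]
    tauto
  obtain ⟨S, hS⟩ : ∃ S : Finset Q.Pl, ∀ v, v ∉ S → ∀ x ∈ T, x ≠ 0 → Q.ord v x = 0 := by
    have hfin : (⋃ x ∈ T.filter (fun x => x ≠ 0), {v | Q.ord v x ≠ 0}).Finite := by
      refine Set.Finite.biUnion (Finset.finite_toSet _) fun x hx => ?_
      exact Q.fin x (Finset.mem_filter.1 hx).2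
    refine ⟨hfin.toFinset, fun v hv x hx hx0 => ?_⟩
    by_contra hne
    apply hv
    rw [Set.Finite.mem_toFinset, Set.mem_iUnion₂]
    exact ⟨x, Finset.mem_filter.2 ⟨hx, hx0⟩, hne⟩
  choose w hw hwx using hext
  have hUT : ∀ v, v ∉ S → UT ι (w v) T := by
    intro v hv x hx hx0
    rw [hwx v x hx0, hS v hv x hx hx0, Int.cast_zero, neg_zero, Real.exp_zero]
  have hGR : ∀ v, v ∉ S → GR (w v) d (p.map ι) (q.map ι) := fun v hv =>
    hT1 (w v) (hw v) fun x hx hx0 => hUT v hv x (hT1T hx) hx0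
  have hUn : ∀ v, v ∉ S → ∀ y ∈ V, y ≠ 0 → Un (w v) (vm ι y) := fun v hv y hy hy0 =>
    un_of_T ι (hUT v hv) hy0 (hV1 y hy) (hV2 y hy)
  have hinf' : ∀ m, 1 ≤ m → wd ((bK d p q)^[m] c) c ≠ 0 := by
    intro m hm h0
    apply hinf 0 m (by omega)
    show wd c _ = 0
    rw [wd_comm, h0, neg_zero]
  have hcl1 : ∀ v, v ∉ S → ∀ N, 1 ≤ N →
      ¬ w v (wd ((bK d (p.map ι) (q.map ι))^[N] (vm ι c)) (vm ι c)) < 1 := by
    intro v hv N hN
    refine claim1 ι hGP hd hR hsp (hw v) (hGR v hv) ?_ c (hUn v hv c hcV hc) hJ hinf' PS hPS1 hPS2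
      (fun y hy => hUn v hv y (hPSV y hy) (hPS1 y hy).1)
      (fun y hy hne => hUT v hv _ (hV3 y (hPSV y hy) c hcV) hne) N hN
    intro m hm Z μ hZ hμ hper hne
    obtain ⟨e, he⟩ := hmul m hm Z μ hZ hμ hper
    have he0 : e ≠ 0 := by
      rintro rfl
      apply hne
      rw [← he, map_zero, map_zero]
    have he1 : algebraMap E K e ≠ 0 := (_root_.map_ne_zero _).2 he0
    rw [← he, hwx v _ he1, Q.ord_alg v e he0, Int.cast_zero, neg_zero, Real.exp_zero]
  have hcl2 : ∀ v, v ∉ S → ∀ n, 1 ≤ n → ∀ i, w v (ι (wd ((bK d p q)^[n] c) (b i))) = 1 :=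
    fun v hv n hn i => claim2 ι hd hR (hw v) (hGR v hv) c (hUn v hv c hcV hc) (hcl1 v hv) (b i)
      (hUn v hv _ (hbV i) (hb0 i)) l (hbl i) n hn
  have hord : ∀ v, ∀ x : K, w v (ι x) = 1 → Q.ord v x = 0 := by
    intro v x hx
    have hx0 : x ≠ 0 := by
      rintro rfl
      rw [map_zero, map_zero] at hx
      exact zero_ne_one hx
    rw [hwx v x hx0, Real.exp_eq_one_iff] at hx
    have : (Q.ord v x : ℝ) = 0 := by linarith
    exact_mod_cast this
  -- non-vanishing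
  have hxb : ∀ n, 1 ≤ n → ∀ i, wd ((bK d p q)^[n] c) (b i) ≠ 0 := by
    intro n hn i h0
    have h1 := wd_iter (d := d) (p := p) (q := q) (iter_ne hd1 hR n c hc) (hb0 i) h0 l
    rw [← Function.iterate_add_apply] at h1
    exact hinf' (l + n) (by omega) (wd_trans (iter_ne hd1 hR _ c hc) (iter_ne hd1 hR _ _ (hb0 i)) h1
      (hbl i))
  have pl : ∀ X A B C : K × K, wd X A * wd B C - wd X B * wd A C + wd X C * wd A B = 0 := by
    intro X A B C
    unfold wd
    ring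
  obtain ⟨uu, huu⟩ : ∃ uu : ℕ → K, ∀ n, uu n = (wd ((bK d p q)^[n] c) (b 1) * wd (b 0) (b 2)) /
    (wd ((bK d p q)^[n] c) (b 0) * wd (b 1) (b 2)) := ⟨fun n => _, fun n => rfl⟩
  have h02 : wd (b 0) (b 2) ≠ 0 := hbb 0 2 (by decide)
  have h12 : wd (b 1) (b 2) ≠ 0 := hbb 1 2 (by decide)
  have h01 : wd (b 0) (b 1) ≠ 0 := hbb 0 1 (by decide)
  have h1u : ∀ n, 1 ≤ n → 1 - uu n = -(wd ((bK d p q)^[n] c) (b 2) * wd (b 0) (b 1)) /
      (wd ((bK d p q)^[n] c) (b 0) * wd (b 1) (b 2)) := by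
    intro n hn
    have h1 := hxb n hn 0
    rw [huu, eq_div_iff (mul_ne_zero h1 h12), sub_mul, div_mul_cancel₀ _ (mul_ne_zero h1 h12)]
    linear_combination pl ((bK d p q)^[n] c) (b 0) (b 1) (b 2)
  obtain ⟨C₁, hC₁⟩ := hSUN E K Q S
  have hht : ∀ n, 1 ≤ n → ∀ S' : Finset Q.Pl, ∑ v ∈ S', (Q.wt v : ℝ) * Q.pole v (uu n) ≤ C₁ := by
    intro n hn
    have hbw : ∀ v, v ∉ S → ∀ i j, i ≠ j → w v (ι (wd (b i) (b j))) = 1 := fun v hv i j hij =>
      hUT v hv _ (hV3 _ (hbV i) _ (hbV j)) (hbb i j hij)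
    refine hC₁ (uu n) ?_ ?_ ?_
    · rw [huu]
      exact div_ne_zero (mul_ne_zero (hxb n hn 1) h02) (mul_ne_zero (hxb n hn 0) h12)
    · intro h1
      have h2 := h1u n hn
      rw [h1, sub_self] at h2
      exact div_ne_zero (neg_ne_zero.2 (mul_ne_zero (hxb n hn 2) h01))
        (mul_ne_zero (hxb n hn 0) h12) h2.symm
    · intro v hv
      constructor
      · apply hord
        rw [huu, map_div₀, map_div₀, map_mul, map_mul, map_mul, map_mul, hcl2 v hv n hn 1,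
          hbw v hv 0 2 (by decide), hcl2 v hv n hn 0, hbw v hv 1 2 (by decide)]
        norm_num
      · apply hord
        rw [h1u n hn, map_div₀, map_div₀, map_neg, w_neg, map_mul, map_mul, map_mul, map_mul,
          hcl2 v hv n hn 2, hbw v hv 0 1 (by decide), hcl2 v hv n hn 0, hbw v hv 1 2 (by decide)]
        norm_num
  -- the coordinates
  obtain ⟨A, hA⟩ : ∃ A, A = wd (b 0) (b 2) := ⟨_, rfl⟩
  obtain ⟨B, hB⟩ : ∃ B, B = wd (b 1) (b 2) := ⟨_, rfl⟩
  have hA0 : A ≠ 0 := by rw [hA]; exact h02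
  have hB0 : B ≠ 0 := by rw [hB]; exact h12
  have hlm : ∀ Z : K × K, lm (A * (b 1).2) (-(A * (b 1).1)) (B * (b 0).2) (-(B * (b 0).1)) Z =
      (A * wd Z (b 1), B * wd Z (b 0)) := by
    intro Z
    unfold lm wd
    ext
    · show _ = A * (Z.1 * (b 1).2 - Z.2 * (b 1).1)
      ring
    · show _ = B * (Z.1 * (b 0).2 - Z.2 * (b 0).1)
      ring
  have hD : (A * (b 1).2) * (-(B * (b 0).1)) - (-(A * (b 1).1)) * (B * (b 0).2) ≠ 0 := by
    have e : (A * (b 1).2) * (-(B * (b 0).1)) - (-(A * (b 1).1)) * (B * (b 0).2) =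
        -(A * B * wd (b 0) (b 1)) := by
      unfold wd
      ring
    rw [e]
    exact neg_ne_zero.2 (mul_ne_zero (mul_ne_zero hA0 hB0) h01)
  obtain ⟨p', q', hp', hq', hco', hact, htr⟩ := exists_conj E hd1 hR _ _ _ _ hD
  simp only [hlm] at hact
  set D := ((A * (b 1).2) * (-(B * (b 0).1)) - (-(A * (b 1).1)) * (B * (b 0).2)) ^ d with hDd
  have hD0 : D ≠ 0 := pow_ne_zero d hD
  have hfix : wd (bK d p q (b 0)) (b 0) ≠ 0 := by
    intro h0
    have h1 := wd_iter (d := d) (p := p) (q := q) (bK_ne hd1 hR _ (hb0 0)) (hb0 0) h0 l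
    rw [← Function.iterate_succ_apply, Function.iterate_succ_apply'] at h1
    have h2 := wd_iter (d := d) (p := p) (q := q) (iter_ne hd1 hR l _ (hb0 0)) hc (hbl 0) 1
    rw [Function.iterate_one] at h2
    have h3 : wd (bK d p q c) (bK d p q ((bK d p q)^[l] (b 0))) = 0 := by
      rw [wd_comm, h2, neg_zero]
    have h4 := wd_trans (bK_ne hd1 hR _ hc) (bK_ne hd1 hR _ (iter_ne hd1 hR l _ (hb0 0))) h3 h1
    have h5 := wd_trans (bK_ne hd1 hR _ hc) (iter_ne hd1 hR l _ (hb0 0)) h4 (hbl 0)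
    exact hinf' 1 le_rfl h5
  have hq'd : q'.natDegree = d := by
    refine le_antisymm hq' (le_natDegree_of_ne_zero ?_)
    have h1 := hact (b 0)
    rw [wd_self, mul_zero] at h1
    unfold bK at h1
    rw [hev_zero, hev_zero] at h1
    have h2 := congrArg Prod.snd h1
    simp only [Prod.smul_snd, smul_eq_mul] at h2
    intro h3
    rw [h3, zero_mul] at h2
    exact mul_ne_zero hD0 (mul_ne_zero hB0 hfix) h2.symm
  -- the orbit
  have hstep : ∀ n, 1 ≤ n → q'.eval (uu n) ≠ 0 ∧ p'.eval (uu n) / q'.eval (uu n) = uu (n + 1) := by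
    intro n hn
    have g0 := hxb n hn 0
    have g1 := hxb (n + 1) (by omega) 0
    obtain ⟨s, hs⟩ : ∃ s, s = B * wd ((bK d p q)^[n] c) (b 0) := ⟨_, rfl⟩
    have hs0 : s ≠ 0 := by rw [hs]; exact mul_ne_zero hB0 g0
    have h1 : ((A * wd ((bK d p q)^[n] c) (b 1), B * wd ((bK d p q)^[n] c) (b 0)) : K × K) =
        s • ((uu n, 1) : K × K) := by
      ext
      · simp only [Prod.smul_fst, smul_eq_mul]
        rw [hs, huu, ← hA, ← hB]
        field_simp
      · simp only [Prod.smul_snd, smul_eq_mul]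
        rw [hs, mul_one]
    have h2 := hact ((bK d p q)^[n] c)
    rw [h1, bK_smul, ← Function.iterate_succ_apply' (bK d p q) n c] at h2
    have e1 : bK d p' q' (uu n, 1) = (p'.eval (uu n), q'.eval (uu n)) := by
      unfold bK
      rw [hev_one d _ hp', hev_one d _ hq']
    rw [e1] at h2
    have h3 := congrArg Prod.fst h2
    have h4 := congrArg Prod.snd h2
    simp only [Prod.smul_fst, Prod.smul_snd, smul_eq_mul] at h3 h4
    have hsd : s ^ d ≠ 0 := pow_ne_zero d hs0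
    have h5 : q'.eval (uu n) ≠ 0 := by
      intro h0
      rw [h0, mul_zero] at h4
      exact mul_ne_zero hD0 (mul_ne_zero hB0 g1) h4.symm
    refine ⟨h5, ?_⟩
    rw [huu (n + 1), ← hA, ← hB, div_eq_div_iff h5 (mul_ne_zero g1 hB0)]
    apply mul_left_cancel₀ hsd
    apply mul_left_cancel₀ hD0
    linear_combination (D * wd ((bK d p q)^[n + 1] c) (b 0) * B) * h3 -
      (D * wd ((bK d p q)^[n + 1] c) (b 1) * A) * h4
  have hinj : ∀ i j, i < j → 1 ≤ i → uu i ≠ uu j := by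
    intro i j hij hi h0
    have hj : 1 ≤ j := by omega
    rw [huu, huu, div_eq_div_iff (mul_ne_zero (hxb i hi 0) h12) (mul_ne_zero (hxb j hj 0) h12)] at h0
    apply hinf i j hij
    have h1 : wd (b 0) (b 2) * wd (b 1) (b 2) * (wd ((bK d p q)^[i] c) (b 1) * wd ((bK d p q)^[j] c) (b 0) -
        wd ((bK d p q)^[j] c) (b 1) * wd ((bK d p q)^[i] c) (b 0)) = 0 := by
      linear_combination h0
    have h2 := (mul_eq_zero.1 h1).resolve_left (mul_ne_zero h02 h12)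
    have h3 : wd ((bK d p q)^[i] c) ((bK d p q)^[j] c) * wd (b 0) (b 1) = 0 := by
      have h4 : wd ((bK d p q)^[i] c) ((bK d p q)^[j] c) * wd (b 0) (b 1) =
          -(wd ((bK d p q)^[i] c) (b 1) * wd ((bK d p q)^[j] c) (b 0) -
        wd ((bK d p q)^[j] c) (b 1) * wd ((bK d p q)^[i] c) (b 0)) := by
        unfold wd
        ring
      rw [h4, h2, neg_zero]
    exact (mul_eq_zero.1 h3).resolve_right h01
  have hO := hBAK E K Q d hd p' q' hp' hq'd hco' (fun h => hcc (htr h))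
    {z | ∃ n, 1 ≤ n ∧ uu n = z} (by
      rintro z ⟨n, hn, rfl⟩
      obtain ⟨h1, h2⟩ := hstep n hn
      exact ⟨h1, n + 1, by omega, h2.symm⟩) C₁ (by
      rintro z ⟨n, hn, rfl⟩ S'
      exact hht n hn S')
  have hinf2 : (Set.range fun n : ℕ => uu (n + 1)).Infinite := by
    apply Set.infinite_range_of_injective
    intro i j hij
    by_contra hne
    rcases lt_or_gt_of_ne hne with h | h
    · exact hinj (i + 1) (j + 1) (by omega) (by omega) hij
    · exact hinj (j + 1) (i + 1) (by omega) (by omega) hij.symm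
  apply hinf2
  refine hO.subset ?_
  rintro z ⟨n, rfl⟩
  exact ⟨n + 1, by omega, rfl⟩

end Pool.Agent.Q177.OP.Pcf
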