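import Pool.Agent.Q289.OP.Stm

/-!
# Splitting a cell in two

For the project OP of helper289: the sum over the distributions of the labels over two neighbouring cells
of lengths `α` and `β` is `κ (α + β) ^ m`.
-/

set_option autoImplicit false

namespace Q177.OP.SCA

open MeasureTheory Set Filter Topology Q289.OP

/-- left end points of the cells, where the cells `a` and `a + 1` have the lengths `α` and `β` -/
noncomputable def sN (a : ℕ) (α β : ℝ) (b : ℕ) : ℝ :=
  if b ≤ a then (b : ℝ) else if b = a + 1 then a + α else (b : ℝ) - 2 + α + β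

/-- lengths of the cells -/
noncomputable def lN (a : ℕ) (α β : ℝ) (b : ℕ) : ℝ :=
  if b = a then α else if b = a + 1 then β else 1

/-- left end points after merging the cells `a` and `a + 1` -/
noncomputable def sM (a : ℕ) (α β : ℝ) (b : ℕ) : ℝ :=
  if b ≤ a then (b : ℝ) else (b : ℝ) - 1 + α + β

/-- lengths after merging the cells `a` and `a + 1` -/
noncomputable def lM (a : ℕ) (α β : ℝ) (b : ℕ) : ℝ := if b = a then α + β else 1

/-- merging -/
def mg (a b : ℕ) : ℕ := if b ≤ a then b else b - 1

theorem lN_pos {a : ℕ} {α β : ℝ} (hα : 0 < α) (hβ : 0 < β) (b : ℕ) : 0 < lN a α β b := by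
  unfold lN; split_ifs <;> linarith

theorem lM_pos {a : ℕ} {α β : ℝ} (hα : 0 < α) (hβ : 0 < β) (b : ℕ) : 0 < lM a α β b := by
  unfold lM; split_ifs <;> linarith

theorem sN_ord {a : ℕ} {α β : ℝ} (hα : 0 < α) (hβ : 0 < β) (b b' : ℕ) (h : b < b') :
    sN a α β b + lN a α β b ≤ sN a α β b' := by
  have h1 : (b : ℝ) + 1 ≤ b' := by exact_mod_cast h
  unfold sN lN
  rcases lt_trichotomy b a with h2 | h2 | h2
  · have h3 : (b : ℝ) + 1 ≤ a := by exact_mod_cast h2
    rw [if_pos h2.le, if_neg (by omega), if_neg (by omega)]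
    split_ifs with h4 h5
    · exact h1
    · linarith
    · have h6 : (a : ℝ) + 2 ≤ b' := by exact_mod_cast (by omega : a + 2 ≤ b')
      linarith
  · subst h2
    rw [if_pos le_rfl, if_pos rfl, if_neg (by omega)]
    split_ifs with h5
    · exact le_rfl
    · have h6 : (b : ℝ) + 2 ≤ b' := by exact_mod_cast (by omega : b + 2 ≤ b')
      linarith
  · rw [if_neg (by omega : ¬ b ≤ a), if_neg (by omega : ¬ b = a), if_neg (by omega : ¬ b' ≤ a),
      if_neg (by omega : ¬ b' = a + 1)]
    by_cases h5 : b = a + 1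
    · have h6 : (a : ℝ) + 2 ≤ b' := by exact_mod_cast (by omega : a + 2 ≤ b')
      rw [if_pos h5, if_pos h5]
      linarith
    · rw [if_neg h5, if_neg h5]
      linarith

theorem sM_ord {a : ℕ} {α β : ℝ} (hα : 0 < α) (hβ : 0 < β) (b b' : ℕ) (h : b < b') :
    sM a α β b + lM a α β b ≤ sM a α β b' := by
  have h1 : (b : ℝ) + 1 ≤ b' := by exact_mod_cast h
  unfold sM lM
  rcases lt_trichotomy b a with h2 | h2 | h2
  · have h3 : (b : ℝ) + 1 ≤ a := by exact_mod_cast h2
    rw [if_pos h2.le, if_neg (by omega)]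
    split_ifs with h4
    · exact h1
    · have h6 : (a : ℝ) + 1 ≤ b' := by exact_mod_cast (by omega : a + 1 ≤ b')
      linarith
  · subst h2
    rw [if_pos le_rfl, if_pos rfl, if_neg (by omega)]
    linarith
  · rw [if_neg (by omega), if_neg (by omega), if_neg (by omega)]
    linarith

/-- cells other than `a` and `a + 1` -/
theorem cell_other {a : ℕ} {α β : ℝ} {b : ℕ} (h1 : b ≠ a) (h2 : b ≠ a + 1) :
    sM a α β (mg a b) = sN a α β b ∧ lM a α β (mg a b) = 1 ∧ lN a α β b = 1 := by
  rcases lt_or_gt_of_ne h1 with h | h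
  · have e : mg a b = b := by simp [mg, h.le]
    rw [e]
    simp [sM, sN, lM, lN, h.le, h1, h2]
  · obtain ⟨k, rfl⟩ : ∃ k, b = a + 2 + k := ⟨b - (a + 2), by omega⟩
    have e : mg a (a + 2 + k) = a + 1 + k := by
      unfold mg; rw [if_neg (by omega)]; omega
    rw [e]
    have g1 : ¬ (a + 1 + k ≤ a) := by omega
    have g2 : ¬ (a + 2 + k ≤ a) := by omega
    have g3 : ¬ (a + 1 + k = a) := by omega
    simp only [sM, sN, lM, lN, g1, g2, g3, h1, h2, if_false]
    refine ⟨?_, trivial, trivial⟩
    push_cast; ring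

theorem cell_same {a : ℕ} {α β : ℝ} {b : ℕ} (h : b = a ∨ b = a + 1) :
    sM a α β (mg a b) = a ∧ lM a α β (mg a b) = α + β := by
  have : mg a b = a := by
    unfold mg
    rcases h with rfl | rfl <;> simp
  rw [this]
  simp [sM, lM]

variable {ι : Type} [Fintype ι] [DecidableEq ι] [PartialOrder ι]

/-- order preserving points with given cells -/
def XX (s l : ℕ → ℝ) (c : ι → ℕ) : Set (ι → ℝ) :=
  {x | (∀ i, x i ∈ Ico (s (c i)) (s (c i) + l (c i))) ∧ Monotone x}

theorem XX_meas (s l : ℕ → ℝ) (c : ι → ℕ) : MeasurableSet (XX s l c) := by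
  have h1 : XX s l c = (univ.pi fun i => Ico (s (c i)) (s (c i) + l (c i))) ∩
      {x | Monotone x} := by
    ext x; simp only [XX, mem_setOf_eq, mem_inter_iff, mem_univ_pi]
  rw [h1]
  exact (MeasurableSet.univ_pi fun i => measurableSet_Ico).inter isClosed_monotone.measurableSet

theorem XX_fin (s l : ℕ → ℝ) (c : ι → ℕ) : volume (XX s l c) ≠ ⊤ := by
  have h1 : XX s l c ⊆ Icc (fun i => s (c i)) (fun i => s (c i) + l (c i)) := by
    intro x hx
    exact ⟨fun i => (hx.1 i).1, fun i => (hx.1 i).2.le⟩
  exact ne_top_of_le_ne_top (isCompact_Icc.measure_lt_top).ne (measure_mono h1)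

variable {N : ℕ}

theorem split_set (a : Fin N) (c : ι → Fin (N + 1)) {α β : ℝ} (hα : 0 < α) (hβ : 0 < β)
    (x : ι → ℝ) :
    x ∈ XX (sM a α β) (lM a α β) (fun i => mg a (c i)) ↔
      ∃ d : ι → Fin (N + 1), blk a c d ∧ x ∈ XX (sN a α β) (lN a α β) (fun i => (d i : ℕ)) := by
  have hS : ∀ b : Fin (N + 1), (b = a.castSucc ∨ b = a.succ) ↔ ((b : ℕ) = a ∨ (b : ℕ) = a + 1) := by
    intro b
    rw [Fin.ext_iff, Fin.ext_iff, Fin.val_castSucc, Fin.val_succ]
  constructor
  · rintro ⟨hx, hm⟩
    refine ⟨fun i => if c i = a.castSucc ∨ c i = a.succ then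
      (if x i < a + α then a.castSucc else a.succ) else c i, ?_, ?_, hm⟩
    · intro i
      dsimp only
      by_cases h : c i = a.castSucc ∨ c i = a.succ
      · right
        refine ⟨h, ?_⟩
        rw [if_pos h]
        split_ifs
        · left; rfl
        · right; rfl
      · left
        rw [if_neg h]
    · intro i
      have h1 := hx i
      dsimp only at h1 ⊢
      by_cases h : c i = a.castSucc ∨ c i = a.succ
      · rw [if_pos h]
        rw [(cell_same ((hS _).1 h)).1, (cell_same ((hS _).1 h)).2] at h1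
        split_ifs with h2
        · rw [Fin.val_castSucc]
          simp only [sN, lN, le_refl, if_true]
          exact ⟨h1.1, h2⟩
        · rw [Fin.val_succ]
          have h3 : ¬ ((a : ℕ) + 1 ≤ a) := by omega
          have h4 : ¬ ((a : ℕ) + 1 = a) := by omega
          simp only [sN, lN, h3, h4, if_false, if_true]
          exact ⟨not_lt.1 h2, by have := h1.2; linarith⟩
      · rw [if_neg h]
        have h' := h
        rw [hS, not_or] at h'
        obtain ⟨e1, e2, e3⟩ := cell_other (α := α) (β := β) h'.1 h'.2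
        rw [e1, e2] at h1
        rw [e3]
        exact h1
  · rintro ⟨d, hd, hx, hm⟩
    refine ⟨fun i => ?_, hm⟩
    have h1 := hx i
    dsimp only at h1 ⊢
    by_cases h : c i = a.castSucc ∨ c i = a.succ
    · rw [(cell_same ((hS _).1 h)).1, (cell_same ((hS _).1 h)).2]
      have h2 : d i = a.castSucc ∨ d i = a.succ := by
        rcases hd i with e | e
        · rw [e]; exact h
        · exact e.2
      rcases h2 with h2 | h2
      · rw [h2, Fin.val_castSucc] at h1
        simp only [sN, lN, le_refl, if_true] at h1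
        exact ⟨h1.1, by have := h1.2; linarith⟩
      · rw [h2, Fin.val_succ] at h1
        have h3 : ¬ ((a : ℕ) + 1 ≤ a) := by omega
        have h4 : ¬ ((a : ℕ) + 1 = a) := by omega
        simp only [sN, lN, h3, h4, if_false, if_true] at h1
        exact ⟨by have := h1.1; linarith, by have := h1.2; linarith⟩
    · have h2 : d i = c i := by
        rcases hd i with e | e
        · exact e
        · exact absurd e.1 h
      rw [h2] at h1
      have h' := h
      rw [hS, not_or] at h'
      obtain ⟨e1, e2, e3⟩ := cell_other (α := α) (β := β) h'.1 h'.2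
      rw [e3] at h1
      rw [e1, e2]
      exact h1

theorem XX_disj {s l : ℕ → ℝ} (hs : ∀ b b' : ℕ, b < b' → s b + l b ≤ s b') {c d : ι → ℕ}
    (h : c ≠ d) : Disjoint (XX s l c) (XX s l d) := by
  rw [Set.disjoint_left]
  intro x hx hy
  obtain ⟨i, hi⟩ := Function.ne_iff.1 h
  rcases lt_or_gt_of_ne hi with h1 | h1
  · have := hs _ _ h1
    have h2 := (hx.1 i).2
    have h3 := (hy.1 i).1
    linarith
  · have := hs _ _ h1
    have h2 := (hx.1 i).1
    have h3 := (hy.1 i).2
    linarith

theorem sca (h : S_LEN) : S_SCA := by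
  classical
  intro ι _ _ _ N a c
  refine ⟨vv fun i => mg a (c i), ?_⟩
  intro α β hα hβ
  have h1 := h ι (sM a α β) (lM a α β) (lM_pos hα hβ) (sM_ord hα hβ) (fun i => mg a (c i))
  have h2 := fun d : ι → Fin (N + 1) =>
    h ι (sN a α β) (lN a α β) (lN_pos hα hβ) (sN_ord hα hβ) (fun i => (d i : ℕ))
  have h3 : XX (sM a α β) (lM a α β) (fun i => mg a (c i)) =
      ⋃ d ∈ (Finset.univ.filter fun d : ι → Fin (N + 1) => blk a c d),
        XX (sN a α β) (lN a α β) (fun i => (d i : ℕ)) := by
    ext x
    rw [split_set a c hα hβ x]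
    simp only [Finset.mem_filter, Finset.mem_univ, true_and, mem_iUnion, exists_prop]
  have h4 : (volume (XX (sM a α β) (lM a α β) (fun i => mg a (c i)))).toReal =
      ∑ d ∈ (Finset.univ.filter fun d : ι → Fin (N + 1) => blk a c d),
        (volume (XX (sN a α β) (lN a α β) (fun i => (d i : ℕ)))).toReal := by
    rw [h3]
    apply measureReal_biUnion_finset
    · intro d _ d' _ hdd
      apply XX_disj (sN_ord hα hβ)
      intro e
      apply hdd
      funext i
      exact Fin.ext (congrFun e i)
    · intro d _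
      exact XX_meas _ _ _
    · intro d _
      exact XX_fin _ _ _
  have hS : ∀ b : Fin (N + 1), (b = a.castSucc ∨ b = a.succ) ↔ ((b : ℕ) = a ∨ (b : ℕ) = a + 1) := by
    intro b
    rw [Fin.ext_iff, Fin.ext_iff, Fin.val_castSucc, Fin.val_succ]
  have h5 : (∏ i, lM a α β (mg a (c i))) =
      (α + β) ^ (Finset.univ.filter fun i => c i = a.castSucc ∨ c i = a.succ).card := by
    rw [← Finset.prod_const, Finset.prod_filter]
    refine Finset.prod_congr rfl fun i _ => ?_
    by_cases hi : c i = a.castSucc ∨ c i = a.succ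
    · rw [if_pos hi, (cell_same ((hS _).1 hi)).2]
    · rw [if_neg hi]
      have h' := hi
      rw [hS, not_or] at h'
      exact (cell_other (α := α) (β := β) h'.1 h'.2).2.1
  have h6 : ∀ d : ι → Fin (N + 1), blk a c d → (∏ i, lN a α β (d i)) =
      ∏ i, if c i = a.castSucc ∨ c i = a.succ then (if d i = a.castSucc then α else β) else 1 := by
    intro d hd
    refine Finset.prod_congr rfl fun i _ => ?_
    by_cases hi : c i = a.castSucc ∨ c i = a.succ
    · rw [if_pos hi]
      have h2 : d i = a.castSucc ∨ d i = a.succ := by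
        rcases hd i with e | e
        · rw [e]; exact hi
        · exact e.2
      rcases h2 with h2 | h2
      · rw [if_pos h2, h2, Fin.val_castSucc]
        simp [lN]
      · have h3 : ¬ (d i = a.castSucc) := by
          rw [h2, Fin.ext_iff, Fin.val_castSucc, Fin.val_succ]; omega
        rw [if_neg h3, h2, Fin.val_succ]
        simp [lN]
    · rw [if_neg hi]
      have h2 : d i = c i := by
        rcases hd i with e | e
        · exact e
        · exact absurd e.1 hi
      have h' := hi
      rw [hS, not_or] at h'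
      rw [h2]
      exact (cell_other (α := α) (β := β) h'.1 h'.2).2.2
  change (volume (XX (sM a α β) (lM a α β) (fun i => mg a (c i)))).toReal = _ at h1
  rw [h4, h5] at h1
  rw [mul_comm, ← h1, Finset.sum_filter]
  refine Finset.sum_congr rfl fun d _ => ?_
  by_cases hd : blk a c d
  · rw [if_pos hd, if_pos hd]
    have := h2 d
    change (volume (XX (sN a α β) (lN a α β) (fun i => (d i : ℕ)))).toReal = _ at this
    rw [this, h6 d hd]
  · rw [if_neg hd, if_neg hd]

end Q177.OP.SCA
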